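import Pool.Agent.Q131.CM.Phase

/-!
# Local homeomorphisms of compact spaces which are homotopic to a homeomorphism, or have a simply
connected target
-/

set_option autoImplicit false

open Set Filter Topology Metric Function
open scoped Manifold ContDiff

noncomputable section

namespace Pool.Agent.Q131.CM

open Pool.Agent.Y522 Pool.Agent.Y66.CM

section cov

variable {X Y : Type} [TopologicalSpace X] [TopologicalSpace Y] [T2Space X] [T2Space Y]
  [CompactSpace X]

/-- A local homeomorphism of a compact space homotopic to a homeomorphism is bijective. -/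
theorem bij_of_homotopic_homeo (h : X ≃ₜ Y) (f h' : C(X, Y)) (hh : ∀ x, h' x = h x)
    (hl : IsLocalHomeomorph f) (H : ContinuousMap.Homotopic f h') : Bijective f := by
  have cov : IsCoveringMap f := isLocalHomeomorph_iff_isCoveringMap.1 hl
  obtain ⟨G⟩ := H
  have hY : CompactSpace Y := h.compactSpace
  let K : C(unitInterval × Y, Y) := ⟨fun p => G (p.1, h.symm p.2), by
    have := h.symm.continuous
    fun_prop⟩
  let g : C(Y, X) := ⟨h.symm, h.symm.continuous⟩
  have K0 : ∀ y, K (0, y) = f (g y) := fun y => G.apply_zero _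
  obtain ⟨L, hL, hL0⟩ : ∃ L : C(unitInterval × Y, X), (∀ p, f (L p) = K p) ∧
      ∀ y, L (0, y) = g y :=
    ⟨cov.liftHomotopy K g K0, fun p => congr_fun (cov.liftHomotopy_lifts K g K0) p,
      cov.liftHomotopy_zero K g K0⟩
  have hs : Continuous (fun y : Y => L (1, y)) := by fun_prop
  have hfs : ∀ y, f (L (1, y)) = y := by
    intro y
    rw [hL]
    change G (1, h.symm y) = y
    rw [G.apply_one, hh, h.apply_symm_apply]
  have hsl : IsLocalHomeomorph (fun y : Y => L (1, y)) := by
    refine IsLocalHomeomorph.of_comp (g := f) ?_ hl hs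
    have h1 : (f : X → Y) ∘ (fun y : Y => L (1, y)) = (Homeomorph.refl Y : Y → Y) := by
      funext y
      exact hfs y
    rw [h1]
    exact (Homeomorph.refl Y).isLocalHomeomorph
  have hclopen : IsClopen (range (fun y : Y => L (1, y))) :=
    ⟨(isCompact_range hs).isClosed, hsl.isOpenMap.isOpen_range⟩
  have hsurj : ∀ x : X, x ∈ range (fun y : Y => L (1, y)) := by
    intro x
    have hpre : IsPreconnected (range (fun t : unitInterval => L (t, h x))) :=
      isPreconnected_range (by fun_prop)
    have h2 := hpre.subset_isClopen hclopen ⟨L (1, h x), ⟨1, rfl⟩, ⟨h x, rfl⟩⟩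
    have h3 : L (0, h x) ∈ range (fun t : unitInterval => L (t, h x)) := ⟨0, rfl⟩
    have h4 := h2 h3
    have h5 : L (0, h x) = x := by
      rw [hL0]
      exact h.symm_apply_apply x
    rwa [h5] at h4
  refine ⟨fun a b hab => ?_, fun y => ⟨_, hfs y⟩⟩
  obtain ⟨y, rfl⟩ := hsurj a
  obtain ⟨z, rfl⟩ := hsurj b
  simp only [hfs] at hab
  rw [hab]

/-- A local homeomorphism from a compact path connected space to a simply connected space is
bijective. -/
theorem bij_of_simplyConnected [PathConnectedSpace X] [SimplyConnectedSpace Y] (f : C(X, Y))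
    (hl : IsLocalHomeomorph f) : Bijective f := by
  have cov : IsCoveringMap f := isLocalHomeomorph_iff_isCoveringMap.1 hl
  constructor
  · intro a b hab
    obtain ⟨γ⟩ := PathConnectedSpace.joined a b
    let γ' : Path (f a) (f a) := (γ.map f.continuous).cast rfl hab
    have h1 : γ'.Homotopic (Path.refl (f a)) := SimplyConnectedSpace.paths_homotopic _ _
    have h2 : (γ : C(unitInterval, X)).HomotopicRel (ContinuousMap.const unitInterval a) {0, 1} := by
      rw [cov.homotopicRel_iff_comp ⟨0, by simp, by simp⟩]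
      exact h1
    obtain ⟨G⟩ := h2
    have h3 : (γ : C(unitInterval, X)) 1 = (ContinuousMap.const unitInterval a) 1 := by
      rw [← G.eq_fst 0 (x := 1) (by simp), ← G.eq_snd 0 (x := 1) (by simp)]
    simpa using h3.symm
  · have hclopen : IsClopen (range f) := ⟨(isCompact_range f.continuous).isClosed,
      hl.isOpenMap.isOpen_range⟩
    have h1 := hclopen.eq_univ (range_nonempty f)
    exact range_eq_univ.1 h1

end cov

section main

variable {n : ℕ} {X Y : Type} [TopologicalSpace X] [T2Space X] [CompactSpace X]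
  [ChartedSpace (E n) X] [IsManifold (𝓡 n) ∞ X] [TopologicalSpace Y] [T2Space Y]
  [ChartedSpace (E n) Y] [IsManifold (𝓡 n) ∞ Y]

theorem isLocalHomeomorph_of_LD {f : X → Y} (h : ∀ x, LD n f x) : IsLocalHomeomorph f := by
  have h1 : IsLocalDiffeomorph (𝓡 n) (𝓡 n) ∞ f := h
  exact h1.isLocalHomeomorph

/-- Cone monotone maps to simply connected manifolds. -/
theorem diffeo_of_simplyConnected [ConnectedSpace X] [SimplyConnectedSpace Y] (f : C(X, Y))
    (hf : ∀ x, LD n f x ∨ CMon n f x) (O : Set (X × Y)) (hO : IsOpen O) (hfO : ∀ x, (x, f x) ∈ O) :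
    ∃ (Φ : Diffeomorph (𝓡 n) (𝓡 n) X Y ∞) (g : C(X, Y)), (∀ x, g x = Φ x) ∧ HomIn O f g := by
  obtain ⟨g, hg, hgl⟩ := call_holds n X Y f O hf hO hfO
  have : LocallyPathConnectedSpace X := ChartedSpace.locallyPathConnectedSpace (E n) X
  have hX : PathConnectedSpace X := pathConnectedSpace_iff_connectedSpace.2 inferInstance
  have hb : Bijective g := bij_of_simplyConnected g (isLocalHomeomorph_of_LD hgl)
  have h1 : IsLocalDiffeomorph (𝓡 n) (𝓡 n) ∞ g := hgl
  exact ⟨h1.diffeomorphOfBijective hb, g, fun x => rfl, hg⟩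

/-- Cone monotone homeomorphisms. -/
theorem diffeo_of_homeo (h : X ≃ₜ Y) (f : C(X, Y)) (hfh : ∀ x, f x = h x)
    (hf : ∀ x, LD n f x ∨ CMon n f x) (O : Set (X × Y)) (hO : IsOpen O) (hfO : ∀ x, (x, f x) ∈ O) :
    ∃ (Φ : Diffeomorph (𝓡 n) (𝓡 n) X Y ∞) (g : C(X, Y)), (∀ x, g x = Φ x) ∧ HomIn O f g := by
  obtain ⟨g, hg, hgl⟩ := call_holds n X Y f O hf hO hfO
  have hg' : ContinuousMap.Homotopic g f := by
    obtain ⟨G⟩ := hg
    exact ⟨G.toHomotopy.symm⟩
  have hb : Bijective g := bij_of_homotopic_homeo h g f hfh (isLocalHomeomorph_of_LD hgl) hg'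
  have h1 : IsLocalDiffeomorph (𝓡 n) (𝓡 n) ∞ g := hgl
  exact ⟨h1.diffeomorphOfBijective hb, g, fun x => rfl, hg⟩

end main

end Pool.Agent.Q131.CM
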