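import Pool.Agent.Q131.CM.Prod

/-!
# Isotopies from space-time cone monotone families

The endgame is adapted from `Pool.Agent.Y434.CI.Main` (helper434).  New: the slices are not assumed
bijective; this follows from the homotopy lifting property.
-/

set_option autoImplicit false

open Set Filter Topology Metric Function MeasureTheory
open scoped Manifold ContDiff

noncomputable section

namespace Pool.Agent.Q131.CM

open Pool.Agent.Y522 Pool.Agent.Y66.CM Pool.Agent.Y434.CI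

theorem isoT {k : ℕ} {X Y : Type} [TopologicalSpace X] [T2Space X] [CompactSpace X]
    [ChartedSpace (E k) X] [IsManifold (𝓡 k) ∞ X] [TopologicalSpace Y] [T2Space Y]
    [ChartedSpace (E k) Y] [IsManifold (𝓡 k) ∞ Y] (F : ℝ × X → Y) (hF : Continuous F)
    (h0 : ∀ t, t ≤ 0 → ∀ x, F (t, x) = F (0, x)) (h1 : ∀ t, 1 ≤ t → ∀ x, F (t, x) = F (1, x))
    (b0 : Bijective (fun x => F (0, x))) (l0 : ∀ x, LD k (fun x => F (0, x)) x)
    (l1 : ∀ x, LD k (fun x => F (1, x)) x)
    (hx : ∀ p : Pr X, LD (k + 1) (lft F) p ∨ CMonT (k + 1) tm (lft F) p)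
    (O : Set (Pr X × Pr Y)) (hO : IsOpen O) (hFO : ∀ p, (p, lft F p) ∈ O) :
    ∃ (R : ℝ) (K : ℝ × X → Y), 1 ≤ R ∧ ContMDiff ((𝓘(ℝ, ℝ)).prod (𝓡 k)) (𝓡 k) ∞ K ∧
      (∀ t, Bijective (fun x => K (t, x))) ∧ (∀ t x, LD k (fun x => K (t, x)) x) ∧
      (∀ x, K (0, x) = F (0, x)) ∧ (∀ x, K (1, x) = F (1, x)) ∧
      ∀ t x, (mk (-R + 2 * R * t, x), mk (-R + 2 * R * t, K (t, x))) ∈ O := by
  have hK : IsCompact {p : Pr X | (un p).1 ∈ Icc (0 : ℝ) 1} := by
    have h2 : IsCompact ((Icc (0 : ℝ) 1) ×ˢ (univ : Set X)) := isCompact_Icc.prod isCompact_univ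
    have h3 : {p : Pr X | (un p).1 ∈ Icc (0 : ℝ) 1} = mk '' ((Icc (0 : ℝ) 1) ×ˢ (univ : Set X)) := by
      ext p
      constructor
      · intro hp
        exact ⟨un p, ⟨hp, mem_univ _⟩, rfl⟩
      · rintro ⟨q, hq, rfl⟩
        exact hq.1
    rw [h3]
    exact h2.image cont_mk
  have hLc : Continuous (lft F) := by
    unfold lft
    exact cont_mk.comp ((continuous_fst.comp cont_un).prodMk (hF.comp cont_un))
  have hKL : ∀ p : Pr X, p ∉ {p : Pr X | (un p).1 ∈ Icc (0 : ℝ) 1} → LD (k + 1) (lft F) p := by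
    intro p hn
    have hn' : (un p).1 < 0 ∨ 1 < (un p).1 := by
      by_contra hc
      push Not at hc
      exact hn ⟨hc.1, hc.2⟩
    rcases hn' with hn' | hn'
    · refine (LD_prod 0 (φ := fun x => F (0, x)) (p := p) (l0 _)).congr ?_
      have h3 : ∀ᶠ q : Pr X in 𝓝 p, (un q).1 < 0 :=
        (continuous_fst.comp cont_un).continuousAt.eventually (gt_mem_nhds hn')
      filter_upwards [h3] with q hq
      rw [zero_add, ← h0 _ hq.le]
      rfl
    · refine (LD_prod 0 (φ := fun x => F (1, x)) (p := p) (l1 _)).congr ?_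
      have h3 : ∀ᶠ q : Pr X in 𝓝 p, 1 < (un q).1 :=
        (continuous_fst.comp cont_un).continuousAt.eventually (lt_mem_nhds hn')
      filter_upwards [h3] with q hq
      rw [zero_add, ← h1 _ hq.le]
      rfl
  obtain ⟨G, C, hC, -, hGc, hGC, hGτ, hGO, hGL⟩ := allT (tm : Unit → Pr Y → ℝ) (tm : Unit → Pr X → ℝ)
    (lft F) {p : Pr X | (un p).1 ∈ Icc (0 : ℝ) 1} univ O hLc (fun _ _ => rfl) hx hK hKL
    isOpen_univ (subset_univ _) tchart_exists hO hFO
  have hlev : ∀ p, (un (G p)).1 = (un p).1 := fun p => hGτ () p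
  obtain ⟨R, hR1, hRC⟩ : ∃ R : ℝ, 1 ≤ R ∧ ∀ p ∈ C, |(un p).1| < R := by
    have h2 : IsCompact ((fun p : Pr X => (un p).1) '' C) :=
      hC.image (continuous_fst.comp cont_un)
    obtain ⟨R, hR⟩ := h2.isBounded.subset_closedBall 0
    refine ⟨|R| + 1, by linarith [abs_nonneg R], fun p hp => ?_⟩
    have h3 := hR ⟨p, hp, rfl⟩
    rw [Metric.mem_closedBall, Real.dist_eq, sub_zero] at h3
    exact (h3.trans (le_abs_self R)).trans_lt (lt_add_one _)
  obtain ⟨F', hF'⟩ : ∃ F' : ℝ × X → Y, F' = fun q => (un (G (mk q))).2 := ⟨_, rfl⟩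
  have hF'G : lft F' = G := by
    funext p
    apply un_inj
    refine Prod.ext ?_ ?_
    · exact (hlev p).symm
    · rw [hF']
      rfl
  have hF'c : Continuous F' := by
    rw [hF']
    exact continuous_snd.comp (cont_un.comp (hGc.comp cont_mk))
  have hF'off : ∀ t x, R ≤ |t| → F' (t, x) = F (t, x) := by
    intro t x ht
    have h2 : (mk (t, x) : Pr X) ∉ C := fun hc => by
      have h3 := hRC _ hc
      change |t| < R at h3
      linarith
    rw [hF']
    change (un (G (mk (t, x)))).2 = _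
    rw [hGC _ h2]
    rfl
  have hb : ∀ t, Bijective fun x => F' (t, x) := by
    intro t
    obtain ⟨h, hh⟩ : ∃ h : X ≃ₜ Y, ∀ x, h x = F (0, x) := by
      have h2 : IsLocalDiffeomorph (𝓡 k) (𝓡 k) ∞ (fun x => F (0, x)) := l0
      exact ⟨(h2.diffeomorphOfBijective b0).toHomeomorph, fun x => rfl⟩
    refine bij_of_homotopic_homeo h ⟨fun x => F' (t, x), by fun_prop⟩
      ⟨fun x => F' (-R, x), by fun_prop⟩ ?_ ?_ ?_
    · intro x
      change F' (-R, x) = h x
      rw [hF'off _ _ (by rw [abs_neg]; exact le_abs_self R), hh, h0 _ (by linarith)]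
    · have h3 : IsLocalHomeomorph (fun x => F' (t, x)) := by
        rw [hF']
        exact slice_loc hGL hlev t
      exact h3
    · exact ⟨{ toFun := fun p => F' ((1 - (p.1 : ℝ)) * t + (p.1 : ℝ) * (-R), p.2)
               continuous_toFun := by fun_prop
               map_zero_left := fun x => by simp
               map_one_left := fun x => by simp }⟩
  have hGb : Bijective G := by
    rw [← hF'G]
    exact bij_lft hb
  have hs' : ContMDiff (𝓡 (k + 1)) (𝓡 (k + 1)) ∞ G := fun p => (hGL p).contMDiffAt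
  refine ⟨R, fun q => F' (-R + 2 * R * q.1, q.2), hR1, ?_, ?_, ?_, ?_, ?_, ?_⟩
  · have h2 : ContMDiff 𝓘(ℝ, ℝ) 𝓘(ℝ, ℝ) ∞ (fun s : ℝ => -R + 2 * R * s) := by
      have : ContDiff ℝ ∞ (fun s : ℝ => -R + 2 * R * s) := by fun_prop
      exact this.contMDiff
    have h3 : ContMDiff ((𝓘(ℝ, ℝ)).prod (𝓡 k)) (𝓡 (k + 1)) ∞
        (fun q : ℝ × X => mk (-R + 2 * R * q.1, q.2)) :=
      (smooth_mk (X := X)).comp ((h2.comp contMDiff_fst).prodMk contMDiff_snd)
    rw [hF']
    exact (smooth_snd (X := Y)).comp (hs'.comp h3)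
  · intro t
    exact hb (-R + 2 * R * t)
  · intro t x
    rw [hF']
    exact LD_slice hGb hGL hlev (-R + 2 * R * t) x
  · intro x
    change F' (-R + 2 * R * 0, x) = _
    rw [mul_zero, add_zero, hF'off _ _ (by rw [abs_neg]; exact le_abs_self R), h0 _ (by linarith)]
  · intro x
    change F' (-R + 2 * R * 1, x) = _
    have h4 : -R + 2 * R * 1 = R := by ring
    rw [h4, hF'off _ _ (le_abs_self R), h1 _ hR1]
  · intro t x
    have h4 := hGO (mk (-R + 2 * R * t, x))
    have h5 : G (mk (-R + 2 * R * t, x)) =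
        mk (-R + 2 * R * t, F' (-R + 2 * R * t, x)) := by
      rw [← hF'G]
      rfl
    rwa [h5] at h4

end Pool.Agent.Q131.CM
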