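import Pool.Agent.Q131.CM.Cov

/-!
# Level preserving smoothing of cone monotone maps, relative to an open set

Adapted from `Pool.Agent.Y66.CM.Stage` and `Pool.Agent.Y66.CM.All` (helper66).  New: the functions
`τ i` of the target are kept, the source need not be compact, and the map is changed only in a
given open set.
-/

set_option autoImplicit false

open Set Filter Topology Metric Function MeasureTheory
open scoped Manifold ContDiff

noncomputable section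

namespace Pool.Agent.Q131.CM

open Pool.Agent.Y522 Pool.Agent.Y66.CM

/-- `f : X → Y` is cone monotone at `x`, with respect to a parametrization in which the functions
`t i` are affine. -/
def CMonT (n : ℕ) {X Y ι : Type} [TopologicalSpace X] [ChartedSpace (E n) X]
    [TopologicalSpace Y] [ChartedSpace (E n) Y] (t : ι → X → ℝ) (f : X → Y) (x : X) : Prop :=
  ∃ B : Y → E n, LD n B (f x) ∧ CMonET n t (fun y => B (f y)) x

/-- a coordinate system in which the functions `τ i` are linear -/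
def TChart (n : ℕ) {Y ι : Type} [TopologicalSpace Y] [ChartedSpace (E n) Y] (τ : ι → Y → ℝ)
    (V : Set Y) (B : Y → E n) (m : ι → E n →L[ℝ] ℝ) : Prop :=
  IsOpen V ∧ InjOn B V ∧ (∀ y ∈ V, LD n B y) ∧ ∀ i, ∀ y ∈ V, m i (B y) = τ i y

section change

variable {n : ℕ} {X Y ι : Type} [TopologicalSpace X] [ChartedSpace (E n) X]
  [TopologicalSpace Y] [ChartedSpace (E n) Y] {t : ι → X → ℝ}

/-- cone monotonicity does not depend on the coordinates of the target -/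
theorem CMonET.change {f : X → Y} {x : X} {B B' : Y → E n} (hf : ContinuousAt f x)
    (hB : LD n B (f x)) (hB' : LD n B' (f x)) (h : CMonET n t (fun y => B (f y)) x) :
    CMonET n t (fun y => B' (f y)) x := by
  obtain ⟨p, hp1, hp2, hp3, -⟩ := hB.exists_inverse
  obtain ⟨y0, hy0⟩ : ∃ y0, y0 = B (f x) := ⟨_, rfl⟩
  rw [← hy0] at hp1 hp2
  obtain ⟨τ, hτd⟩ : ∃ τ : E n → E n, τ = fun z => B' (p z) := ⟨_, rfl⟩
  have hτ : LD n τ y0 := by
    rw [hτd]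
    exact LD.comp_fun (by rw [hp2]; exact hB') hp1
  obtain ⟨T, hT⟩ := hτ.exists_equiv
  have hTs : HasStrictFDerivAt τ (T : E n →L[ℝ] E n) y0 :=
    hτ.contDiffAt.hasStrictFDerivAt' hT (by simp)
  obtain ⟨A, hA0, hAd, hAt, hm⟩ := h
  refine ⟨A, hA0, hAd, hAt, fun v hv => ?_⟩
  obtain ⟨r, ℓ, hr, hℓ⟩ := hm v hv
  obtain ⟨ℓ', hℓ'⟩ : ∃ ℓ' : E n →L[ℝ] ℝ, ℓ' = ℓ.comp (T.symm : E n →L[ℝ] E n) := ⟨_, rfl⟩
  obtain ⟨η, hη, hη1⟩ : ∃ η : ℝ, 0 < η ∧ ‖ℓ'‖ * η ≤ r / 2 := by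
    have h0 : (0 : ℝ) < ‖ℓ'‖ + 1 := by positivity
    refine ⟨r / 2 / (‖ℓ'‖ + 1), by positivity, ?_⟩
    rw [mul_div_assoc', div_le_iff₀ h0]
    nlinarith [norm_nonneg ℓ']
  have h1 : ∀ᶠ z : E n × E n in 𝓝 (y0, y0),
      ‖τ z.1 - τ z.2 - T (z.1 - z.2)‖ ≤ η * ‖z.1 - z.2‖ :=
    (hTs.isLittleO.def hη)
  have hAt : Tendsto A (𝓝 0) (𝓝 x) := by
    have := hAd.continuousAt
    rwa [ContinuousAt, hA0] at this
  have hBf : Tendsto (fun q => B (f (A q))) (𝓝 0) (𝓝 y0) := by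
    rw [hy0]
    exact (hB.continuousAt.tendsto.comp hf.tendsto).comp hAt
  rw [nhds_prod_eq] at h1
  obtain ⟨P1, hP1, P2, hP2, hP⟩ := eventually_prod_iff.1 h1
  have h2 : ∀ᶠ q in 𝓝 (0 : E n), (P1 (B (f (A q))) ∧ P2 (B (f (A q)))) ∧
      B' (f (A q)) = τ (B (f (A q))) := by
    have h3 := (hf.tendsto.comp hAt).eventually hp3
    filter_upwards [hBf.eventually hP1, hBf.eventually hP2, h3] with q h4 h5 h6
    refine ⟨⟨h4, h5⟩, ?_⟩
    rw [hτd]
    simp only [Function.comp] at h6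
    simp only [h6]
  obtain ⟨s, hs, h3⟩ := Metric.eventually_nhds_iff_ball.1 h2
  obtain ⟨N, hN⟩ : ∃ N : ℝ, N = ‖(T : E n →L[ℝ] E n)‖ + η := ⟨_, rfl⟩
  have hN0 : 0 < N := by
    rw [hN]
    have := norm_nonneg (T : E n →L[ℝ] E n)
    linarith
  obtain ⟨r', hr'0, hr'1, hr'2, hr'3⟩ : ∃ r' : ℝ, 0 < r' ∧ r' ≤ r ∧ r' ≤ s / 2 ∧
      r' * N ≤ r / 2 := by
    refine ⟨min (min r (s / 2)) (r / 2 / N), lt_min (lt_min hr (by linarith)) (by positivity),
      (min_le_left _ _).trans (min_le_left _ _), (min_le_left _ _).trans (min_le_right _ _), ?_⟩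
    calc min (min r (s / 2)) (r / 2 / N) * N ≤ r / 2 / N * N :=
          mul_le_mul_of_nonneg_right (min_le_right _ _) hN0.le
      _ = r / 2 := div_mul_cancel₀ _ hN0.ne'
  refine ⟨r', ℓ', hr'0, fun p' q hp' hq s0 hs0 hpq => ?_⟩
  have h4 := hℓ p' q (hp'.trans hr'1) (hq.trans hr'1) s0 hs0
    (hpq.trans (mul_le_mul_of_nonneg_right hr'1 hs0.le))
  obtain ⟨⟨-, h5⟩, h6⟩ := h3 p' (by rw [mem_ball_zero_iff]; linarith)
  obtain ⟨⟨h7, -⟩, h8⟩ := h3 q (by rw [mem_ball_zero_iff]; linarith)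
  have h9 := hP h7 h5
  simp only at h9
  obtain ⟨z, hz⟩ : ∃ z, z = B (f (A p')) := ⟨_, rfl⟩
  obtain ⟨z', hz'⟩ : ∃ z', z' = B (f (A q)) := ⟨_, rfl⟩
  change r' * ‖B' (f (A q)) - B' (f (A p'))‖ < ℓ' (B' (f (A q)) - B' (f (A p')))
  change r * ‖B (f (A q)) - B (f (A p'))‖ < ℓ (B (f (A q)) - B (f (A p'))) at h4
  rw [h6, h8, ← hz, ← hz']
  rw [← hz, ← hz'] at h4 h9
  obtain ⟨err, herr⟩ : ∃ err, err = τ z' - τ z - T (z' - z) := ⟨_, rfl⟩
  have e1 : τ z' - τ z = T (z' - z) + err := by rw [herr]; abel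
  rw [← herr] at h9
  have e2 : ℓ' (τ z' - τ z) = ℓ (z' - z) + ℓ' err := by
    rw [e1, map_add, hℓ']
    simp
  have e3 : |ℓ' err| ≤ r / 2 * ‖z' - z‖ := by
    have h10 := ℓ'.le_opNorm err
    rw [Real.norm_eq_abs] at h10
    calc |ℓ' err| ≤ ‖ℓ'‖ * ‖err‖ := h10
      _ ≤ ‖ℓ'‖ * (η * ‖z' - z‖) := mul_le_mul_of_nonneg_left h9 (norm_nonneg _)
      _ = (‖ℓ'‖ * η) * ‖z' - z‖ := by ring
      _ ≤ r / 2 * ‖z' - z‖ := mul_le_mul_of_nonneg_right hη1 (norm_nonneg _)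
  have e4 : ‖τ z' - τ z‖ ≤ N * ‖z' - z‖ := by
    rw [e1, hN]
    calc _ ≤ ‖T (z' - z)‖ + ‖err‖ := norm_add_le _ _
      _ ≤ ‖(T : E n →L[ℝ] E n)‖ * ‖z' - z‖ + η * ‖z' - z‖ :=
          add_le_add ((T : E n →L[ℝ] E n).le_opNorm _) h9
      _ = (‖(T : E n →L[ℝ] E n)‖ + η) * ‖z' - z‖ := by ring
  have e5 : r' * ‖τ z' - τ z‖ ≤ r / 2 * ‖z' - z‖ := by
    calc r' * ‖τ z' - τ z‖ ≤ r' * (N * ‖z' - z‖) := mul_le_mul_of_nonneg_left e4 hr'0.le
      _ = (r' * N) * ‖z' - z‖ := by ring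
      _ ≤ r / 2 * ‖z' - z‖ := mul_le_mul_of_nonneg_right hr'3 (norm_nonneg _)
  rw [e2]
  have e6 := (abs_le.1 e3).1
  linarith

theorem CMonT.congr {f f' : X → Y} {x : X} (h : CMonT n t f x) (he : f' =ᶠ[𝓝 x] f) :
    CMonT n t f' x := by
  obtain ⟨B, hB, h1⟩ := h
  refine ⟨B, ?_, CMonET.congr h1 ?_⟩
  · rw [he.self_of_nhds]
    exact hB
  · filter_upwards [he] with y hy
    rw [hy]

end change

theorem stageT {n : ℕ} {X Y ι : Type} [TopologicalSpace X] [T2Space X] [ChartedSpace (E n) X]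
    [IsManifold (𝓡 n) ∞ X] [TopologicalSpace Y] [T2Space Y] [ChartedSpace (E n) Y]
    [IsManifold (𝓡 n) ∞ Y] (τ : ι → Y → ℝ) (t : ι → X → ℝ) (f : X → Y) (D U : Set X) (V : Set Y)
    (B : Y → E n) (m : ι → E n →L[ℝ] ℝ) (O : Set (X × Y))
    (hf : Continuous f) (ht : ∀ i x, τ i (f x) = t i x)
    (hx : ∀ x, LD n f x ∨ CMonT n t f x) (hD : IsCompact D) (hUo : IsOpen U) (hDU : D ⊆ U)
    (hT : TChart n τ V B m) (hDV : ∀ x ∈ D, f x ∈ V) (hO : IsOpen O) (hfO : ∀ x, (x, f x) ∈ O) :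
    ∃ (f' : X → Y) (C : Set X), IsCompact C ∧ C ⊆ U ∧ Continuous f' ∧
      (∀ x, x ∉ C → f' x = f x) ∧ (∀ i x, τ i (f' x) = t i x) ∧
      (∀ x, LD n f' x ∨ CMonT n t f' x) ∧ (∀ x, (x, f' x) ∈ O) ∧
      (∀ x, LD n f x → LD n f' x) ∧ ∀ x ∈ D, LD n f' x := by
  obtain ⟨hV, hBi, hBd, hm⟩ := hT
  classical
  rcases isEmpty_or_nonempty Y with hY | hY
  · have hX : IsEmpty X := ⟨fun x => hY.elim (f x)⟩
    exact ⟨f, ∅, isCompact_empty, empty_subset _, hf, fun _ _ => rfl, ht, hx, hfO, fun _ h => h,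
      fun x => hX.elim x⟩
  obtain ⟨W, hWd⟩ : ∃ W : Set X, W = f ⁻¹' V ∩ U := ⟨_, rfl⟩
  have hmW : ∀ x, x ∈ W → f x ∈ V := fun x hx => by rw [hWd] at hx; exact hx.1
  have hWU : W ⊆ U := by rw [hWd]; exact inter_subset_right
  have hWo : IsOpen W := by rw [hWd]; exact (hV.preimage hf).inter hUo
  obtain ⟨F, hFd⟩ : ∃ F : X → E n, F = fun x => B (f x) := ⟨_, rfl⟩
  have hFx : ∀ x, F x = B (f x) := fun x => by rw [hFd]
  have hFca : ∀ x ∈ W, ContinuousAt F x := by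
    intro x hxW
    rw [hFd]
    exact ContinuousAt.comp (hBd _ (hmW x hxW)).continuousAt hf.continuousAt
  obtain ⟨β, hβd⟩ : ∃ β : E n → Y, β = invFunOn B V := ⟨_, rfl⟩
  have hβ : ∀ y ∈ V, β (B y) = y := by
    intro y hy
    rw [hβd]
    exact hBi.leftInvOn_invFunOn hy
  have hβL : ∀ y ∈ V, LD n β (B y) := fun y hy => LD.inverse hV hBd hβ hy
  have hU : IsOpen (B '' V) := isOpen_image_of_LD hV hBd
  obtain ⟨C, hC, hCW, hPh⟩ := cphaseT n X ι t m F W D hWo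
    (fun x hxW => (hFca x hxW).continuousWithinAt)
    (by
      intro x hxW
      rcases hx x with h1 | ⟨B1, hB1, h1⟩
      · left
        rw [hFd]
        exact LD.comp_fun (hBd _ (hmW x hxW)) h1
      · right
        rw [hFd]
        exact CMonET.change hf.continuousAt hB1 (hBd _ (hmW x hxW)) h1)
    hD (fun x hxD => by rw [hWd]; exact ⟨hDV x hxD, hDU hxD⟩)
    (fun i x hxW => by rw [hFx, hm i _ (hmW x hxW), ht])
  -- the margin
  have hG : ∀ x ∈ C, ∀ᶠ q : X × E n in 𝓝 (x, F x), q.2 ∈ B '' V ∧ (q.1, β q.2) ∈ O := by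
    intro x hxC
    have hxV := hmW x (hCW hxC)
    have h1 : ∀ᶠ q : X × E n in 𝓝 (x, F x), q.2 ∈ B '' V :=
      continuousAt_snd.eventually (hU.mem_nhds (by rw [hFx]; exact ⟨f x, hxV, rfl⟩))
    have h2 : ContinuousAt (fun q : X × E n => (q.1, β q.2)) (x, F x) := by
      refine ContinuousAt.prodMk continuousAt_fst ?_
      refine ContinuousAt.comp (g := β) ?_ continuousAt_snd
      change ContinuousAt β (F x)
      rw [hFx]
      exact (hβL _ hxV).continuousAt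
    have h3 : (x, β (F x)) ∈ O := by
      rw [hFx, hβ _ hxV]
      exact hfO x
    exact h1.and (h2.eventually (hO.mem_nhds h3))
  have hmar : ∃ e : ℝ, 0 < e ∧ ∀ x ∈ C, ∀ w : E n, ‖w - F x‖ ≤ e → w ∈ B '' V ∧ (x, β w) ∈ O := by
    refine hC.induction_on (p := fun s => ∃ e : ℝ, 0 < e ∧ ∀ x ∈ s, ∀ w : E n, ‖w - F x‖ ≤ e →
      w ∈ B '' V ∧ (x, β w) ∈ O) ?_ ?_ ?_ ?_
    · exact ⟨1, one_pos, fun x hx => absurd hx (notMem_empty x)⟩
    · rintro s t hst ⟨e, he, h⟩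
      exact ⟨e, he, fun x hx => h x (hst hx)⟩
    · rintro s t ⟨e, he, h⟩ ⟨e', he', h'⟩
      refine ⟨min e e', lt_min he he', fun x hx w hw => ?_⟩
      rcases hx with hx | hx
      · exact h x hx w (hw.trans (min_le_left _ _))
      · exact h' x hx w (hw.trans (min_le_right _ _))
    · intro x hxC
      have h1 := hG x hxC
      rw [nhds_prod_eq] at h1
      obtain ⟨P1, hP1, P2, hP2, hP⟩ := eventually_prod_iff.1 h1
      obtain ⟨e, he, h2⟩ := Metric.eventually_nhds_iff_ball.1 hP2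
      have h3 : ∀ᶠ x' in 𝓝 x, P1 x' ∧ F x' ∈ ball (F x) (e / 2) :=
        hP1.and ((hFca x (hCW hxC)).eventually (ball_mem_nhds _ (by linarith)))
      refine ⟨{x' | P1 x' ∧ F x' ∈ ball (F x) (e / 2)}, mem_nhdsWithin_of_mem_nhds h3, e / 3,
        by linarith, ?_⟩
      rintro x' ⟨h4, h5⟩ w hw
      refine hP h4 (h2 w ?_)
      rw [mem_ball, dist_eq_norm] at h5 ⊢
      have h6 : w - F x = (w - F x') + (F x' - F x) := by abel
      rw [h6]
      refine (norm_add_le _ _).trans_lt ?_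
      linarith
  obtain ⟨e, he, hmar⟩ := hmar
  obtain ⟨F', hF'c, hF'C, hF'e, hF'τ, hF'L, hF'D, hF'm⟩ := hPh e he
  obtain ⟨f', hf'd⟩ : ∃ f' : X → Y, f' = fun x => if x ∈ C then β (F' x) else f x := ⟨_, rfl⟩
  have h'C : ∀ x, x ∉ C → f' x = f x := fun x hx => by rw [hf'd]; exact if_neg hx
  have h'C' : ∀ x, x ∈ C → f' x = β (F' x) := fun x hx => by rw [hf'd]; exact if_pos hx
  have hF'V : ∀ x ∈ W, ∃ y ∈ V, F' x = B y ∧ f' x = y := by
    intro x hxW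
    by_cases hxC : x ∈ C
    · obtain ⟨⟨y, hy, hyF⟩, -⟩ := hmar x hxC (F' x) (hF'e x)
      refine ⟨y, hy, hyF.symm, ?_⟩
      rw [h'C' x hxC, ← hyF, hβ y hy]
    · exact ⟨f x, hmW x hxW, by rw [hF'C x hxC, hFx], h'C x hxC⟩
  have hF'B : ∀ x ∈ W, B (f' x) = F' x := by
    intro x hxW
    obtain ⟨y, hy, h1, h2⟩ := hF'V x hxW
    rw [h2, h1]
  have hF'β : ∀ x ∈ W, f' x = β (F' x) := by
    intro x hxW
    obtain ⟨y, hy, h1, h2⟩ := hF'V x hxW
    rw [h2, h1, hβ y hy]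
  have hf'V : ∀ x ∈ W, f' x ∈ V := by
    intro x hxW
    obtain ⟨y, hy, h1, h2⟩ := hF'V x hxW
    rw [h2]
    exact hy
  have hβF : ∀ x ∈ W, LD n β (F' x) := by
    intro x hxW
    rw [← hF'B x hxW]
    exact hβL _ (hf'V x hxW)
  have hevW : ∀ x ∈ W, f' =ᶠ[𝓝 x] fun y => β (F' y) := by
    intro x hxW
    filter_upwards [hWo.mem_nhds hxW] with y hy
    exact hF'β y hy
  have hevC : ∀ x, x ∉ C → f' =ᶠ[𝓝 x] f := by
    intro x hxC
    filter_upwards [hC.isClosed.isOpen_compl.mem_nhds hxC] with y hy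
    exact h'C y hy
  have hLW : ∀ x ∈ W, LD n F' x → LD n f' x := fun x hxW h =>
    LD.congr (LD.comp_fun (hβF x hxW) h) (hevW x hxW)
  have hnC : ∀ x, x ∉ W → x ∉ C := fun x hxW hxC => hxW (hCW hxC)
  have hf'c : Continuous f' := by
    rw [continuous_iff_continuousAt]
    intro x
    by_cases hxW : x ∈ W
    · rw [continuousAt_congr (hevW x hxW)]
      exact ContinuousAt.comp (g := β) (hβF x hxW).continuousAt
        (hF'c.continuousAt (hWo.mem_nhds hxW))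
    · rw [continuousAt_congr (hevC x (hnC x hxW))]
      exact hf.continuousAt
  refine ⟨f', C, hC, hCW.trans hWU, hf'c, h'C, ?_, ?_, ?_, ?_, ?_⟩
  · intro i x
    by_cases hxC : x ∈ C
    · have hxW := hCW hxC
      rw [← hm i _ (hf'V x hxW), hF'B x hxW, hF'τ i x, hFx, hm i _ (hmW x hxW), ht]
    · rw [h'C x hxC, ht]
  · intro x
    by_cases hxW : x ∈ W
    · rcases hF'm x hxW with h1 | h1
      · exact Or.inl (hLW x hxW h1)
      · refine Or.inr ⟨B, hBd _ (hf'V x hxW), CMonET.congr h1 ?_⟩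
        filter_upwards [hWo.mem_nhds hxW] with y hy
        exact hF'B y hy
    · rcases hx x with h1 | h1
      · exact Or.inl (LD.congr h1 (hevC x (hnC x hxW)))
      · exact Or.inr (CMonT.congr h1 (hevC x (hnC x hxW)))
  · intro x
    by_cases hxC : x ∈ C
    · rw [h'C' x hxC]
      exact (hmar x hxC _ (hF'e x)).2
    · rw [h'C x hxC]
      exact hfO x
  · intro x h1
    by_cases hxW : x ∈ W
    · apply hLW x hxW
      apply hF'L
      rw [hFd]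
      exact LD.comp_fun (hBd _ (hmW x hxW)) h1
    · exact LD.congr h1 (hevC x (hnC x hxW))
  · intro x hxD
    have hxW : x ∈ W := by rw [hWd]; exact ⟨hDV x hxD, hDU hxD⟩
    exact hLW x hxW (hF'D x hxD)

theorem allT {n : ℕ} {X Y ι : Type} [TopologicalSpace X] [T2Space X] [ChartedSpace (E n) X]
    [IsManifold (𝓡 n) ∞ X] [TopologicalSpace Y] [T2Space Y] [ChartedSpace (E n) Y]
    [IsManifold (𝓡 n) ∞ Y] (τ : ι → Y → ℝ) (t : ι → X → ℝ) (f : X → Y) (K U : Set X)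
    (O : Set (X × Y)) (hf : Continuous f) (ht : ∀ i x, τ i (f x) = t i x)
    (hx : ∀ x, LD n f x ∨ CMonT n t f x) (hK : IsCompact K) (hKL : ∀ x, x ∉ K → LD n f x)
    (hUo : IsOpen U) (hKU : K ⊆ U)
    (hch : ∀ y : Y, ∃ (V : Set Y) (B : Y → E n) (m : ι → E n →L[ℝ] ℝ), y ∈ V ∧ TChart n τ V B m)
    (hO : IsOpen O) (hfO : ∀ x, (x, f x) ∈ O) :
    ∃ (f' : X → Y) (C : Set X), IsCompact C ∧ C ⊆ U ∧ Continuous f' ∧
      (∀ x, x ∉ C → f' x = f x) ∧ (∀ i x, τ i (f' x) = t i x) ∧ (∀ x, (x, f' x) ∈ O) ∧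
      ∀ x, LD n f' x := by
  classical
  choose V B m hyV hTC using hch
  have hD : ∀ x : X, ∃ D : Set X, x ∈ U → IsCompact D ∧ x ∈ interior D ∧
      D ⊆ f ⁻¹' V (f x) ∩ U := by
    intro x
    have : LocallyCompactSpace X := ChartedSpace.locallyCompactSpace (E n) X
    by_cases hxU : x ∈ U
    · obtain ⟨D, h1, h2, h3⟩ := exists_compact_subset (((hTC (f x)).1.preimage hf).inter hUo)
        (show x ∈ f ⁻¹' V (f x) ∩ U from ⟨hyV (f x), hxU⟩)
      exact ⟨D, fun _ => ⟨h1, h2, h3⟩⟩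
    · exact ⟨∅, fun h => absurd h hxU⟩
  choose D hDD using hD
  obtain ⟨s₀, hs₀K, hs₀⟩ := hK.elim_nhds_subcover (fun x => interior (D x))
    (fun x hxK => isOpen_interior.mem_nhds (hDD x (hKU hxK)).2.1)
  have hs₀U : ∀ x ∈ s₀, x ∈ U := fun x hx => hKU (hs₀K x hx)
  obtain ⟨O', hO'd⟩ : ∃ O' : Set (X × Y), O' = O ∩ ⋂ x ∈ s₀, {p : X × Y | p.1 ∉ D x ∨
    p.2 ∈ V (f x)} := ⟨_, rfl⟩
  have hO'm : ∀ p : X × Y, p ∈ O' ↔ p ∈ O ∧ ∀ x ∈ s₀, p.1 ∉ D x ∨
      p.2 ∈ V (f x) := by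
    intro p
    rw [hO'd]
    simp
  have hO'o : IsOpen O' := by
    rw [hO'd]
    refine hO.inter (isOpen_biInter_finset fun x hx => ?_)
    have h1 : IsOpen {p : X × Y | p.1 ∉ D x} :=
      (hDD x (hs₀U x hx)).1.isClosed.isOpen_compl.preimage continuous_fst
    have h2 : IsOpen {p : X × Y | p.2 ∈ V (f x)} :=
      (hTC (f x)).1.preimage continuous_snd
    exact h1.union h2
  have hfO' : ∀ x, (x, f x) ∈ O' := by
    intro x
    rw [hO'm]
    refine ⟨hfO x, fun z hz => ?_⟩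
    by_cases hxz : x ∈ D z
    · exact Or.inr ((hDD z (hs₀U z hz)).2.2 hxz).1
    · exact Or.inl hxz
  have hind : ∀ s : Finset X, s ⊆ s₀ → ∃ (f' : X → Y) (C : Set X), IsCompact C ∧ C ⊆ U ∧
      Continuous f' ∧ (∀ x, x ∉ C → f' x = f x) ∧ (∀ i x, τ i (f' x) = t i x) ∧
      (∀ x, LD n f' x ∨ CMonT n t f' x) ∧ (∀ x, (x, f' x) ∈ O') ∧ (∀ x, LD n f x → LD n f' x) ∧
      ∀ z ∈ s, ∀ x ∈ D z, LD n f' x := by
    intro s
    induction s using Finset.induction_on with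
    | empty =>
      intro _
      exact ⟨f, ∅, isCompact_empty, empty_subset _, hf, fun _ _ => rfl, ht, hx, hfO',
        fun _ h => h, fun z hz => absurd hz (Finset.notMem_empty z)⟩
    | insert a s ha ih =>
      intro hst
      obtain ⟨f1, C1, c1, c2, c3, c4, c5, c6, c7, c8, c9⟩ :=
        ih ((Finset.subset_insert a s).trans hst)
      have hat : a ∈ s₀ := hst (Finset.mem_insert_self a s)
      obtain ⟨f2, C2, e1, e2, e3, e4, e5, e6, e7, e8, e9⟩ := stageT τ t f1 (D a) U (V (f a))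
        (B (f a)) (m (f a)) O' c3 c5 c6 (hDD a (hs₀U a hat)).1 hUo
        ((hDD a (hs₀U a hat)).2.2.trans inter_subset_right) (hTC (f a))
        (by
          intro x hxa
          rcases ((hO'm _).1 (c7 x)).2 a hat with h10 | h10
          · exact absurd hxa h10
          · exact h10)
        hO'o c7
      refine ⟨f2, C1 ∪ C2, c1.union e1, union_subset c2 e2, e3, fun x hx => ?_, e5, e6, e7,
        fun x hx => e8 x (c8 x hx), fun z hz x hxz => ?_⟩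
      · rw [e4 x (fun h => hx (Or.inr h)), c4 x (fun h => hx (Or.inl h))]
      · rcases Finset.mem_insert.1 hz with h10 | h10
        · subst h10
          exact e9 x hxz
        · exact e8 x (c9 z h10 x hxz)
  obtain ⟨f', C, c1, c2, c3, c4, c5, c6, c7, c8, c9⟩ := hind s₀ (Finset.Subset.refl s₀)
  refine ⟨f', C, c1, c2, c3, c4, c5, fun x => ((hO'm _).1 (c7 x)).1, fun x => ?_⟩
  by_cases hxK : x ∈ K
  · obtain ⟨z, hz, hxz⟩ := mem_iUnion₂.1 (hs₀ hxK)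
    exact c9 z hz x (interior_subset hxz)
  · exact c8 x (hKL x hxK)

end Pool.Agent.Q131.CM
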