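import Pool.Agent.Q131.CM.Iso

/-!
# Lipschitz families with nonsingular increments are cone monotone in space-time
-/

set_option autoImplicit false

open Set Filter Topology Metric Function MeasureTheory
open scoped Manifold ContDiff

noncomputable section

namespace Pool.Agent.Q131.CM

open Pool.Agent.Y522 Pool.Agent.Y66.CM Pool.Agent.Y434.CI

theorem norm_cn_le {k : ℕ} (s : ℝ) (z : E k) : ‖cn s z‖ ≤ |s| + ‖z‖ := by
  have h := norm_cn_sq s z
  have h1 : (0 : ℝ) ≤ |s| + ‖z‖ := by positivity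
  refine le_of_sq_le_sq ?_ h1
  rw [h, ← sq_abs s]
  nlinarith [abs_nonneg s, norm_nonneg z, mul_nonneg (abs_nonneg s) (norm_nonneg z)]

theorem cn_sub {k : ℕ} (s s' : ℝ) (z z' : E k) : cn s z - cn s' z' = cn (s - s') (z - z') := by
  ext i
  refine Fin.cases ?_ (fun i => ?_) i <;> simp

/-- a Lipschitz family of maps with nonsingular increments at the time `t` and the point `x` -/
def LipCone (k : ℕ) {X Y : Type} [TopologicalSpace X] [ChartedSpace (E k) X]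
    [TopologicalSpace Y] [ChartedSpace (E k) Y] (F : ℝ × X → Y) (t : ℝ) (x : X) : Prop :=
  ∃ (A : E k → X) (B : Y → E k) (L r₀ : ℝ), A 0 = x ∧ LD k A 0 ∧ LD k B (F (t, x)) ∧ 0 < r₀ ∧
    (∀ s s' : ℝ, |s - t| ≤ r₀ → |s' - t| ≤ r₀ → ∀ p q : E k, ‖p‖ ≤ r₀ → ‖q‖ ≤ r₀ →
      ‖B (F (s', A q)) - B (F (s, A p))‖ ≤ L * (|s' - s| + ‖q - p‖)) ∧
    ∀ v : E k, v ≠ 0 → ∃ (r : ℝ) (ℓ : E k →L[ℝ] ℝ), 0 < r ∧ ∀ s : ℝ, |s - t| ≤ r →
      ∀ p q : E k, ‖p‖ ≤ r → ‖q‖ ≤ r → ∀ σ : ℝ, 0 < σ → ‖q - p - σ • v‖ ≤ r * σ →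
        r * σ < ℓ (B (F (s, A q)) - B (F (s, A p)))

theorem LipCone.cmonT {k : ℕ} {X Y : Type} [TopologicalSpace X] [ChartedSpace (E k) X]
    [IsManifold (𝓡 k) ∞ X] [TopologicalSpace Y] [ChartedSpace (E k) Y] [IsManifold (𝓡 k) ∞ Y]
    {F : ℝ × X → Y} {t : ℝ} {x : X} (h : LipCone k F t x) :
    CMonT (k + 1) (tm : Unit → Pr X → ℝ) (lft F) (mk (t, x)) := by
  obtain ⟨A, B, L', r₀, hA0, hA, hB, hr₀, hLip', hcone⟩ := h
  obtain ⟨L, hL0, hLip⟩ : ∃ L : ℝ, 0 ≤ L ∧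
      ∀ s s' : ℝ, |s - t| ≤ r₀ → |s' - t| ≤ r₀ → ∀ p q : E k, ‖p‖ ≤ r₀ → ‖q‖ ≤ r₀ →
      ‖B (F (s', A q)) - B (F (s, A p))‖ ≤ L * (|s' - s| + ‖q - p‖) :=
    ⟨|L'|, abs_nonneg _, fun s s' hs hs' p q hp hq => (hLip' s s' hs hs' p q hp hq).trans
      (mul_le_mul_of_nonneg_right (le_abs_self _) (by positivity))⟩
  refine ⟨fun p => cn (un p).1 (B (un p).2), LD_cht hB, fun w => mk (t + w 0, A (tl w)), ?_,
    LD_par t hA, ?_, ?_⟩
  · apply un_inj
    refine Prod.ext ?_ ?_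
    · change t + (0 : E (k + 1)) 0 = t
      simp
    · change A (tl (0 : E (k + 1))) = x
      rw [map_zero, hA0]
  · intro _
    exact ⟨t, EuclideanSpace.proj 0, fun w => rfl⟩
  intro v hv
  have hval : ∀ w : E (k + 1), cn (un (lft F (mk (t + w 0, A (tl w))))).1
      (B (un (lft F (mk (t + w 0, A (tl w))))).2) = cn (t + w 0) (B (F (t + w 0, A (tl w)))) :=
    fun w => rfl
  simp only [hval]
  obtain ⟨M, hM⟩ : ∃ M : ℝ, M = |v 0| + 1 + L * (|v 0| + ‖(tl v : E k)‖ + 2) := ⟨_, rfl⟩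
  have hM0 : 0 < M := by rw [hM]; positivity
  -- general estimates
  have hest : ∀ r : ℝ, 0 < r → r ≤ 1 → r ≤ r₀ → ∀ p q : E (k + 1), ‖p‖ ≤ r → ‖q‖ ≤ r →
      ∀ σ : ℝ, 0 < σ → ‖q - p - σ • v‖ ≤ r * σ →
      |(q 0 - p 0) - σ * v 0| ≤ r * σ ∧ ‖(tl q : E k) - tl p - σ • tl v‖ ≤ r * σ ∧
      ‖cn (t + q 0) (B (F (t + q 0, A (tl q)))) - cn (t + p 0) (B (F (t + p 0, A (tl p))))‖ ≤
        σ * M := by
    intro r hr hr1 hrr p q hp hq σ hσ hpq
    have e1 : |(q 0 - p 0) - σ * v 0| ≤ r * σ := by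
      have h1 := abs_head_le (q - p - σ • v)
      have h2 : (q - p - σ • v) 0 = (q 0 - p 0) - σ * v 0 := by simp
      rw [h2] at h1
      exact h1.trans hpq
    have e2 : ‖(tl q : E k) - tl p - σ • tl v‖ ≤ r * σ := by
      have h1 := norm_tl_le (q - p - σ • v)
      have h2 : (tl (q - p - σ • v) : E k) = tl q - tl p - σ • tl v := by
        rw [map_sub, map_sub, map_smul]
      rw [h2] at h1
      exact h1.trans hpq
    refine ⟨e1, e2, ?_⟩
    have e3 : |q 0 - p 0| ≤ σ * (|v 0| + 1) := by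
      have h1 : q 0 - p 0 = ((q 0 - p 0) - σ * v 0) + σ * v 0 := by ring
      rw [h1]
      refine (abs_add_le _ _).trans ?_
      rw [abs_mul, abs_of_pos hσ]
      nlinarith
    have e4 : ‖(tl q : E k) - tl p‖ ≤ σ * (‖(tl v : E k)‖ + 1) := by
      have h1 : (tl q : E k) - tl p = (tl q - tl p - σ • tl v) + σ • tl v := by abel
      rw [h1]
      refine (norm_add_le _ _).trans ?_
      rw [norm_smul, Real.norm_of_nonneg hσ.le]
      nlinarith
    rw [cn_sub]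
    refine (norm_cn_le _ _).trans ?_
    have e5 : t + q 0 - (t + p 0) = q 0 - p 0 := by ring
    rw [e5]
    have e6 := hLip (t + p 0) (t + q 0)
      (by rw [add_sub_cancel_left]; exact (abs_head_le p).trans (hp.trans hrr))
      (by rw [add_sub_cancel_left]; exact (abs_head_le q).trans (hq.trans hrr)) (tl p) (tl q)
      ((norm_tl_le p).trans (hp.trans hrr)) ((norm_tl_le q).trans (hq.trans hrr))
    rw [e5] at e6
    have e7 : L * (|q 0 - p 0| + ‖(tl q : E k) - tl p‖) ≤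
        L * (σ * (|v 0| + 1) + σ * (‖(tl v : E k)‖ + 1)) :=
      mul_le_mul_of_nonneg_left (add_le_add e3 e4) hL0
    rw [hM]
    calc _ ≤ σ * (|v 0| + 1) + L * (σ * (|v 0| + 1) + σ * (‖(tl v : E k)‖ + 1)) :=
          add_le_add e3 (e6.trans e7)
      _ = σ * (|v 0| + 1 + L * (|v 0| + ‖(tl v : E k)‖ + 2)) := by ring
  by_cases hv0 : v 0 = 0
  · -- space-like directions
    have hu : (tl v : E k) ≠ 0 := by
      intro h0
      apply hv
      rw [← cn_tl v, hv0, h0]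
      ext i
      refine Fin.cases ?_ (fun i => ?_) i <;> simp
    obtain ⟨r₁, ℓ, hr₁, hℓ⟩ := hcone (tl v) hu
    obtain ⟨N, hN⟩ : ∃ N : ℝ, N = ‖ℓ‖ * L + M + 1 := ⟨_, rfl⟩
    have hN0 : 0 < N := by rw [hN]; positivity
    obtain ⟨r, hr, hr1, hrr, hrr1, hrN⟩ : ∃ r : ℝ, 0 < r ∧ r ≤ 1 ∧ r ≤ r₀ ∧ r ≤ r₁ ∧
        r * N ≤ r₁ := by
      refine ⟨min (min 1 r₀) (min r₁ (r₁ / N)), by positivity,
        (min_le_left _ _).trans (min_le_left _ _), (min_le_left _ _).trans (min_le_right _ _),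
        (min_le_right _ _).trans (min_le_left _ _), ?_⟩
      calc min (min 1 r₀) (min r₁ (r₁ / N)) * N ≤ r₁ / N * N :=
            mul_le_mul_of_nonneg_right ((min_le_right _ _).trans (min_le_right _ _)) hN0.le
        _ = r₁ := div_mul_cancel₀ _ hN0.ne'
    refine ⟨r, ℓ.comp (tl : E (k + 1) →L[ℝ] E k), hr, fun p q hp hq σ hσ hpq => ?_⟩
    obtain ⟨e1, e2, e3⟩ := hest r hr hr1 hrr p q hp hq σ hσ hpq
    rw [ContinuousLinearMap.comp_apply]
    obtain ⟨D, hD⟩ : ∃ D, D = cn (t + q 0) (B (F (t + q 0, A (tl q)))) -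
      cn (t + p 0) (B (F (t + p 0, A (tl p)))) := ⟨_, rfl⟩
    have e4 : (tl D : E k) = (B (F (t + q 0, A (tl q))) - B (F (t + p 0, A (tl q)))) +
        (B (F (t + p 0, A (tl q))) - B (F (t + p 0, A (tl p)))) := by
      rw [hD, cn_sub, tl_cn]
      abel
    rw [← hD] at e3 ⊢
    rw [e4, map_add]
    have e5' : |t + p 0 - t| ≤ r₁ := by
      rw [add_sub_cancel_left]
      exact (abs_head_le p).trans (hp.trans hrr1)
    have e5 := hℓ (t + p 0) e5' (tl p) (tl q) ((norm_tl_le p).trans (hp.trans hrr1))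
      ((norm_tl_le q).trans (hq.trans hrr1)) σ hσ
      (e2.trans (mul_le_mul_of_nonneg_right hrr1 hσ.le))
    have e6 : ‖B (F (t + q 0, A (tl q))) - B (F (t + p 0, A (tl q)))‖ ≤ L * (r * σ) := by
      have h1 := hLip (t + p 0) (t + q 0)
        (by rw [add_sub_cancel_left]; exact (abs_head_le p).trans (hp.trans hrr))
        (by rw [add_sub_cancel_left]; exact (abs_head_le q).trans (hq.trans hrr)) (tl q) (tl q)
        ((norm_tl_le q).trans (hq.trans hrr)) ((norm_tl_le q).trans (hq.trans hrr))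
      rw [sub_self, norm_zero, add_zero] at h1
      refine h1.trans (mul_le_mul_of_nonneg_left ?_ hL0)
      have h2 : t + q 0 - (t + p 0) = (q 0 - p 0) - σ * v 0 := by rw [hv0]; ring
      rw [h2]
      exact e1
    have e7 : |ℓ (B (F (t + q 0, A (tl q))) - B (F (t + p 0, A (tl q))))| ≤
        ‖ℓ‖ * (L * (r * σ)) := by
      have h1 := ℓ.le_opNorm (B (F (t + q 0, A (tl q))) - B (F (t + p 0, A (tl q))))
      rw [Real.norm_eq_abs] at h1
      exact h1.trans (mul_le_mul_of_nonneg_left e6 (norm_nonneg _))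
    have e8 := (abs_le.1 e7).1
    have e9 : r * ‖D‖ ≤ r * (σ * M) := mul_le_mul_of_nonneg_left e3 hr.le
    have e10 : r * N * σ ≤ r₁ * σ := mul_le_mul_of_nonneg_right hrN hσ.le
    rw [hN] at e10
    have e11 : 0 < r * σ := mul_pos hr hσ
    have e12 : r * (‖ℓ‖ * L + M + 1) * σ = ‖ℓ‖ * (L * (r * σ)) + r * (σ * M) + r * σ := by ring
    rw [e12] at e10
    linarith
  · -- time-like directions
    have ha : 0 < |v 0| := abs_pos.2 hv0
    obtain ⟨r, hr, hr1, hrr, hrN⟩ : ∃ r : ℝ, 0 < r ∧ r ≤ 1 ∧ r ≤ r₀ ∧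
        r * (M + 2) ≤ |v 0| := by
      refine ⟨min (min 1 r₀) (|v 0| / (M + 2)), by positivity,
        (min_le_left _ _).trans (min_le_left _ _), (min_le_left _ _).trans (min_le_right _ _), ?_⟩
      calc min (min 1 r₀) (|v 0| / (M + 2)) * (M + 2) ≤ |v 0| / (M + 2) * (M + 2) :=
            mul_le_mul_of_nonneg_right (min_le_right _ _) (by linarith)
        _ = |v 0| := div_mul_cancel₀ _ (by linarith)
    obtain ⟨ε, hε1, hε2⟩ : ∃ ε : ℝ, |ε| = 1 ∧ ε * v 0 = |v 0| := by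
      rcases lt_or_gt_of_ne hv0 with h | h
      · exact ⟨-1, by simp, by rw [abs_of_neg h]; ring⟩
      · exact ⟨1, by simp, by rw [abs_of_pos h]; ring⟩
    refine ⟨r, ε • (EuclideanSpace.proj 0 : E (k + 1) →L[ℝ] ℝ), hr, fun p q hp hq σ hσ hpq => ?_⟩
    obtain ⟨e1, e2, e3⟩ := hest r hr hr1 hrr p q hp hq σ hσ hpq
    obtain ⟨D, hD⟩ : ∃ D, D = cn (t + q 0) (B (F (t + q 0, A (tl q)))) -
      cn (t + p 0) (B (F (t + p 0, A (tl p)))) := ⟨_, rfl⟩
    have e4 : (ε • (EuclideanSpace.proj 0 : E (k + 1) →L[ℝ] ℝ)) D = ε * (q 0 - p 0) := by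
      have h1 : (ε • (EuclideanSpace.proj 0 : E (k + 1) →L[ℝ] ℝ)) D = ε * D 0 := rfl
      rw [h1, hD, cn_sub, cn_zero]
      ring
    rw [← hD] at e3 ⊢
    rw [e4]
    have e5 : ε * (q 0 - p 0) = ε * ((q 0 - p 0) - σ * v 0) + σ * |v 0| := by
      rw [← hε2]
      ring
    have e6 : |ε * ((q 0 - p 0) - σ * v 0)| ≤ r * σ := by
      rw [abs_mul, hε1, one_mul]
      exact e1
    have e7 := (abs_le.1 e6).1
    have e8 : r * ‖D‖ ≤ r * (σ * M) := mul_le_mul_of_nonneg_left e3 hr.le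
    have e9 : r * (M + 2) * σ ≤ |v 0| * σ := mul_le_mul_of_nonneg_right hrN hσ.le
    have e10 : 0 < r * σ := mul_pos hr hσ
    have e11 : r * (M + 2) * σ = r * (σ * M) + r * σ + r * σ := by ring
    rw [e11] at e9
    rw [e5]
    linarith

end Pool.Agent.Q131.CM
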