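import Pool.Agent.Q131.CM.Step
import Pool.Agent.Y66.CM.All
import Pool.Agent.Y73.SH.Glob

/-!
# Smoothing a cone monotone map near a compact set

The finite induction is adapted from `Pool.Agent.Y73.SH.Glob` (helper73).  The cones are kept
because the step keeps every functional.
-/

set_option autoImplicit false

open Set Filter Topology Metric Function MeasureTheory
open scoped Manifold ContDiff

noncomputable section

namespace Pool.Agent.Q131.CM

open Pool.Agent.Y522 Pool.Agent.Y66.CM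

section defs

variable (n : ℕ) {X ι : Type} [TopologicalSpace X] [ChartedSpace (E n) X]

/-- the functions `τ i` are affine in the parametrization `A` -/
def AffT (τ : ι → X → ℝ) (A : E n → X) : Prop :=
  ∀ i, ∃ (a : ℝ) (l : E n →L[ℝ] ℝ), ∀ z, τ i (A z) = a + l z

/-- `F : X → ℝ^n` is cone monotone at `x`, with respect to a parametrization in which the functions
`τ i` are affine. -/
def CMonET (τ : ι → X → ℝ) (F : X → E n) (x : X) : Prop :=
  ∃ A : E n → X, A 0 = x ∧ LD n A 0 ∧ AffT n τ A ∧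
    ∀ v : E n, v ≠ 0 → ∃ (r : ℝ) (ℓ : E n →L[ℝ] ℝ), 0 < r ∧
    ∀ p q : E n, ‖p‖ ≤ r → ‖q‖ ≤ r → ∀ t : ℝ, 0 < t → ‖q - p - t • v‖ ≤ r * t →
      r * ‖F (A q) - F (A p)‖ < ℓ (F (A q) - F (A p))

end defs

/-- smoothing near a compact set -/
def StCPhaseT : Prop :=
  ∀ (n : ℕ) (X : Type) [TopologicalSpace X] [T2Space X] [ChartedSpace (E n) X]
    [IsManifold (𝓡 n) ∞ X] (ι : Type) (τ : ι → X → ℝ) (m : ι → E n →L[ℝ] ℝ)
    (F : X → E n) (W : Set X) (K : Set X),
    IsOpen W → ContinuousOn F W → (∀ x ∈ W, LD n F x ∨ CMonET n τ F x) → IsCompact K → K ⊆ W →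
    (∀ i, ∀ x ∈ W, m i (F x) = τ i x) →
    ∃ C : Set X, IsCompact C ∧ C ⊆ W ∧ ∀ e : ℝ, 0 < e → ∃ F' : X → E n,
      ContinuousOn F' W ∧ (∀ p, p ∉ C → F' p = F p) ∧ (∀ p, ‖F' p - F p‖ ≤ e) ∧
      (∀ i p, m i (F' p) = m i (F p)) ∧
      (∀ x, LD n F x → LD n F' x) ∧ (∀ x ∈ K, LD n F' x) ∧
      ∀ x ∈ W, LD n F' x ∨ CMonET n τ F' x

section

variable {n : ℕ} {X ι : Type} [TopologicalSpace X] [ChartedSpace (E n) X] {τ : ι → X → ℝ}

theorem CMonET.toE {F : X → E n} {x : X} (h : CMonET n τ F x) : CMonE n F x := by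
  obtain ⟨A, h1, h2, -, h3⟩ := h
  exact ⟨A, h1, h2, h3⟩

theorem CMonET.of_empty [IsEmpty ι] {F : X → E n} {x : X} (h : CMonE n F x) :
    CMonET n τ F x := by
  obtain ⟨A, h1, h2, h3⟩ := h
  exact ⟨A, h1, h2, fun i => isEmptyElim i, h3⟩

theorem CMonET.congr {F F' : X → E n} {x : X} (h : CMonET n τ F x) (he : F' =ᶠ[𝓝 x] F) :
    CMonET n τ F' x := by
  obtain ⟨A, hA0, hAd, hAτ, hA⟩ := h
  refine ⟨A, hA0, hAd, hAτ, fun v hv => ?_⟩
  obtain ⟨r, ℓ, hr, hℓ⟩ := hA v hv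
  have h1 : ∀ᶠ p in 𝓝 (0 : E n), F' (A p) = F (A p) := by
    have h2 := hAd.continuousAt
    rw [ContinuousAt, hA0] at h2
    exact h2.eventually he
  obtain ⟨r1, hr1, h3⟩ := Metric.eventually_nhds_iff_ball.1 h1
  have h4 : ∀ p : E n, ‖p‖ ≤ min r (r1 / 2) → F' (A p) = F (A p) := by
    intro p hp
    apply h3
    rw [mem_ball_zero_iff]
    have := min_le_right r (r1 / 2)
    linarith
  refine ⟨min r (r1 / 2), ℓ, lt_min hr (by linarith), fun p q hp hq t ht hpq => ?_⟩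
  rw [h4 p hp, h4 q hq]
  refine lt_of_le_of_lt (mul_le_mul_of_nonneg_right (min_le_left _ _) (norm_nonneg _)) ?_
  exact hℓ p q (hp.trans (min_le_left _ _)) (hq.trans (min_le_left _ _)) t ht
    (hpq.trans (mul_le_mul_of_nonneg_right (min_le_left _ _) ht.le))

theorem AffT.add {A : E n → X} (h : AffT n τ A) (z : E n) : AffT n τ (fun p => A (p + z)) := by
  intro i
  obtain ⟨a, l, hal⟩ := h i
  refine ⟨a + l z, l, fun p => ?_⟩
  rw [hal, map_add]
  ring

theorem AffT.smul {A : E n → X} (h : AffT n τ A) (c : ℝ) : AffT n τ (fun p => A (c • p)) := by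
  intro i
  obtain ⟨a, l, hal⟩ := h i
  refine ⟨a, c • l, fun p => ?_⟩
  rw [hal, map_smul]
  rfl

theorem CMonET_of_CBox {F : X → E n} {A : E n → X} {κ : ℝ} (hκ : 0 < κ) (hA : AffT n τ A)
    (h : CBox n F A (3 / 2) κ) {z : E n} (hz : ‖z‖ ≤ 1) (hd : LD n A z) :
    CMonET n τ F (A z) := by
  refine ⟨fun p => A (p + z), by simp, ?_, hA.add z, fun v hv => ?_⟩
  · have h1 : LD n (fun p : E n => p + z) 0 := LD_add_const z 0
    refine LD.comp_fun ?_ h1
    simpa using hd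
  · have hv0 : 0 < ‖v‖ := norm_pos_iff.2 hv
    obtain ⟨c, ℓ, hc, hℓ⟩ := h (‖v‖⁻¹ • v) (by
      rw [norm_smul, norm_inv, norm_norm, inv_mul_cancel₀ hv0.ne'])
    refine ⟨min (min (1 / 2) (κ * ‖v‖)) c, ℓ, lt_min (lt_min (by norm_num) (mul_pos hκ hv0)) hc,
      fun p q hp hq t ht hpq => ?_⟩
    have h0 : min (min (1 / 2) (κ * ‖v‖)) c ≤ min (1 / 2) (κ * ‖v‖) := min_le_left _ _
    have h1 : ∀ p : E n, ‖p‖ ≤ min (min (1 / 2) (κ * ‖v‖)) c → ‖p + z‖ ≤ 3 / 2 := by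
      intro p hp
      have h2 := norm_add_le p z
      have h3 := min_le_left (1 / 2) (κ * ‖v‖)
      linarith
    refine lt_of_le_of_lt (mul_le_mul_of_nonneg_right (min_le_right _ _) (norm_nonneg _)) ?_
    refine hℓ (p + z) (q + z) (h1 p hp) (h1 q hq) (t * ‖v‖) (mul_pos ht hv0) ?_
    have e1 : q + z - (p + z) - (t * ‖v‖) • ‖v‖⁻¹ • v = q - p - t • v := by
      rw [smul_smul, mul_assoc, mul_inv_cancel₀ hv0.ne', mul_one]
      abel
    rw [e1]
    refine hpq.trans ?_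
    have h3 := h0.trans (min_le_right (1 / 2) (κ * ‖v‖))
    calc min (min (1 / 2) (κ * ‖v‖)) c * t ≤ κ * ‖v‖ * t := mul_le_mul_of_nonneg_right h3 ht.le
      _ = κ * (t * ‖v‖) := by ring

/-- uniform boxes inside an open set -/
theorem cboxT_exists {F : X → E n} {x : X} {W : Set X} (hW : IsOpen W) (hxW : x ∈ W)
    (hx : CMonET n τ F x) : ∃ (B : E n → X) (κ : ℝ), 0 < κ ∧ B 0 = x ∧ AffT n τ B ∧
      InjOn B (closedBall 0 2) ∧
      (∀ z ∈ closedBall 0 2, LD n B z) ∧ (∀ z ∈ closedBall 0 2, B z ∈ W) ∧ CBox n F B 2 κ := by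
  obtain ⟨A, hA0, hA, hAτ, hmon⟩ := hx
  have hmon' : ∀ v : E n, ∃ (r : ℝ) (ℓ : E n →L[ℝ] ℝ), v ≠ 0 → 0 < r ∧
    ∀ p q : E n, ‖p‖ ≤ r → ‖q‖ ≤ r → ∀ t : ℝ, 0 < t → ‖q - p - t • v‖ ≤ r * t →
      r * ‖F (A q) - F (A p)‖ < ℓ (F (A q) - F (A p)) := by
    intro v
    by_cases hv : v = 0
    · exact ⟨1, 0, fun h => absurd hv h⟩
    · obtain ⟨r, ℓ, h1, h2⟩ := hmon v hv
      exact ⟨r, ℓ, fun _ => ⟨h1, h2⟩⟩
  choose r ℓ hr using hmon'
  obtain ⟨u, hu, hinj⟩ := hA.eventually_injOn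
  have hAW : A ⁻¹' W ∈ 𝓝 (0 : E n) :=
    hA.continuousAt.preimage_mem_nhds (hW.mem_nhds (by rwa [hA0]))
  obtain ⟨r1, hr1, hball⟩ := (nhds_basis_closedBall (x := (0 : E n))).mem_iff.mp
    (Filter.inter_mem (Filter.inter_mem hu hA.eventually) hAW)
  obtain ⟨t, ht1, ht2⟩ := (isCompact_sphere (0 : E n) 1).elim_nhds_subcover
    (fun v => ball v (r v / 2)) (by
      intro v hv
      have hv0 : v ≠ 0 := by
        rintro rfl
        simp at hv
      exact ball_mem_nhds v (by linarith [(hr v hv0).1]))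
  have hne : ∀ v ∈ t, v ≠ 0 := by
    rintro v hv rfl
    have := ht1 0 hv
    simp at this
  obtain ⟨ρ0, hρ0, hρt⟩ := Pool.Agent.Y899.SH.exists_min t r (fun v hv => (hr v (hne v hv)).1)
  obtain ⟨ρ, hρdef⟩ : ∃ ρ : ℝ, ρ = min ρ0 r1 := ⟨_, rfl⟩
  have hρ : 0 < ρ := by rw [hρdef]; exact lt_min hρ0 hr1
  have hρ1 : ρ ≤ r1 := by rw [hρdef]; exact min_le_right _ _
  have hρ2 : ∀ v ∈ t, ρ ≤ r v := fun v hv => by
    rw [hρdef]
    exact (min_le_left _ _).trans (hρt v hv)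
  have hnorm : ∀ z : E n, ‖z‖ ≤ 2 → ‖(ρ / 2) • z‖ ≤ ρ := by
    intro z hz
    rw [norm_smul, Real.norm_eq_abs, abs_of_pos (by linarith)]
    calc ρ / 2 * ‖z‖ ≤ ρ / 2 * 2 := mul_le_mul_of_nonneg_left hz (by linarith)
      _ = ρ := by ring
  have hmem : ∀ z ∈ closedBall (0 : E n) 2, (ρ / 2) • z ∈ closedBall (0 : E n) r1 := by
    intro z hz
    rw [mem_closedBall_zero_iff] at hz ⊢
    exact (hnorm z hz).trans hρ1
  refine ⟨fun z => A ((ρ / 2) • z), ρ / 2, by linarith, ?_, hAτ.smul _, ?_, ?_, ?_, ?_⟩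
  · simp [hA0]
  · intro a ha b hb hab
    have h1 := hinj (hball (hmem a ha)).1.1 (hball (hmem b hb)).1.1 hab
    have h2 : (ρ / 2 : ℝ) ≠ 0 := by linarith
    exact smul_right_injective _ h2 h1
  · intro z hz
    have h2 : (ρ / 2 : ℝ) ≠ 0 := by linarith
    have h3 : LD n (fun y : E n => (ρ / 2) • y) z :=
      LD_linear (ContinuousLinearEquiv.smulLeft (Units.mk0 (ρ / 2) h2)) z
    have h4 : LD n A ((ρ / 2) • z) := (hball (hmem z hz)).1.2
    exact LD.comp_fun (g := A) (f := fun y : E n => (ρ / 2) • y) h4 h3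
  · intro z hz
    exact (hball (hmem z hz)).2
  · intro v hv
    have hv' : v ∈ sphere (0 : E n) 1 := by simpa using hv
    obtain ⟨w, hw⟩ := mem_iUnion.mp (ht2 hv')
    obtain ⟨hwt, hvw⟩ := mem_iUnion.mp hw
    rw [mem_ball, dist_eq_norm] at hvw
    refine ⟨r w, ℓ w, (hr w (hne w hwt)).1, ?_⟩
    intro p q hp hq s hs hpq
    have h1 := hρ2 w hwt
    refine (hr w (hne w hwt)).2 ((ρ / 2) • p) ((ρ / 2) • q) ((hnorm p hp).trans h1)
      ((hnorm q hq).trans h1) (ρ / 2 * s) (by positivity) ?_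
    have h2 : (ρ / 2) • q - (ρ / 2) • p - (ρ / 2 * s) • w =
        (ρ / 2) • (q - p - s • v) + (ρ / 2 * s) • (v - w) := by
      module
    rw [h2]
    calc ‖(ρ / 2) • (q - p - s • v) + (ρ / 2 * s) • (v - w)‖
        ≤ ‖(ρ / 2) • (q - p - s • v)‖ + ‖(ρ / 2 * s) • (v - w)‖ := norm_add_le _ _
      _ = ρ / 2 * ‖q - p - s • v‖ + ρ / 2 * s * ‖v - w‖ := by
          rw [norm_smul, norm_smul, Real.norm_eq_abs, Real.norm_eq_abs,
            abs_of_pos (by linarith), abs_of_pos (by positivity)]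
      _ ≤ ρ / 2 * (ρ / 2 * s) + ρ / 2 * s * (r w / 2) := by
          apply add_le_add
          · exact mul_le_mul_of_nonneg_left hpq (by linarith)
          · exact mul_le_mul_of_nonneg_left hvw.le (by positivity)
      _ = (ρ / 2 + r w / 2) * (ρ / 2 * s) := by ring
      _ ≤ r w * (ρ / 2 * s) := by
          apply mul_le_mul_of_nonneg_right _ (by positivity)
          linarith

end

theorem cphaseT_of (hS : StCStepT) : StCPhaseT := by
  intro n X _ _ _ _ ι τ m F W K hW hF hx hK hKW hm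
  classical
  obtain ⟨K', hK'd⟩ : ∃ K' : Set X, K' = K ∩ {x | ¬ LD n F x} := ⟨_, rfl⟩
  have hopen : IsOpen {x | LD n F x} := by
    rw [isOpen_iff_mem_nhds]
    intro x hx
    exact hx.eventually
  have hK' : IsCompact K' := by
    rw [hK'd]
    exact hK.inter_right hopen.isClosed_compl
  have hK'W : ∀ x ∈ K', x ∈ W ∧ ¬ LD n F x := by
    intro x hx
    rw [hK'd] at hx
    exact ⟨hKW hx.1, hx.2⟩
  have h1 : ∀ x, x ∈ K' → ∃ (B : E n → X) (κ : ℝ), 0 < κ ∧ B 0 = x ∧ AffT n τ B ∧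
      InjOn B (closedBall 0 2) ∧
      (∀ z ∈ closedBall 0 2, LD n B z) ∧ (∀ z ∈ closedBall 0 2, B z ∈ W) ∧ CBox n F B 2 κ := by
    intro x hxK
    obtain ⟨h2, h3⟩ := hK'W x hxK
    rcases hx x h2 with h4 | h4
    · exact absurd h4 h3
    · exact cboxT_exists hW h2 h4
  choose! B κ hκ hB0 hBτ hBi hBd hBW hBm using h1
  have hU : ∀ x (hx : x ∈ K'), B x '' ball 0 (1 / 2) ∈ 𝓝 x := by
    intro x hx
    have h2 : LD n (B x) 0 := hBd x hx 0 (by simp)
    have h3 := h2.image_mem_nhds (ball_mem_nhds (0 : E n) (by norm_num : (0 : ℝ) < 1 / 2))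
    rwa [hB0 x hx] at h3
  obtain ⟨t, ht⟩ := hK'.elim_nhds_subcover' (fun x _ => B x '' ball 0 (1 / 2)) hU
  set N := t.card with hN
  set A : Fin N → E n → X := fun j => B ((t.equivFin.symm j).1 : X) with hA
  have hAK : ∀ j : Fin N, ((t.equivFin.symm j).1 : X) ∈ K' := fun j =>
    (t.equivFin.symm j).1.2
  obtain ⟨κ₀, hκ0, hκ1⟩ := Pool.Agent.Y73.SH.exists_lower
    (fun j : Fin N => κ ((t.equivFin.symm j).1 : X)) (fun j => hκ _ (hAK j))
  have hAi : ∀ j, InjOn (A j) (closedBall 0 2) := fun j => hBi _ (hAK j)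
  have hAd : ∀ j, ∀ z ∈ closedBall (0 : E n) 2, LD n (A j) z := fun j => hBd _ (hAK j)
  have hAW : ∀ j, ∀ z ∈ closedBall (0 : E n) 2, A j z ∈ W := fun j => hBW _ (hAK j)
  have hAτ : ∀ j, AffT n τ (A j) := fun j => hBτ _ (hAK j)
  have hAm : ∀ j, CBox n F (A j) 2 κ₀ := fun j => (hBm _ (hAK j)).mono le_rfl (hκ1 j)
  have hcov : ∀ x ∈ K', ∃ j z, ‖z‖ ≤ 1 / 2 ∧ A j z = x := by
    intro x hx
    have h2 := ht hx
    rw [mem_iUnion₂] at h2
    obtain ⟨y, hy, z, hz, hzx⟩ := h2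
    refine ⟨t.equivFin ⟨y, hy⟩, z, ?_, ?_⟩
    · rw [mem_ball_zero_iff] at hz
      exact hz.le
    · simp only [hA, Equiv.symm_apply_apply]
      exact hzx
  obtain ⟨C, hCdef⟩ : ∃ C : Set X, C = ⋃ j, A j '' closedBall 0 1 := ⟨_, rfl⟩
  have hCc : IsCompact C := by
    rw [hCdef]
    apply isCompact_iUnion
    intro j
    apply (isCompact_closedBall _ _).image_of_continuousOn
    intro z hz
    exact (hAd j z (closedBall_subset_closedBall (by norm_num) hz)).continuousAt.continuousWithinAt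
  have hCW : C ⊆ W := by
    rw [hCdef]
    refine iUnion_subset fun j => ?_
    rintro _ ⟨z, hz, rfl⟩
    exact hAW j z (closedBall_subset_closedBall (by norm_num) hz)
  refine ⟨C, hCc, hCW, fun e he => ?_⟩
  -- the induction
  have key : ∀ i : ℕ, i ≤ N → ∃ F' : X → E n, ContinuousOn F' W ∧
      (∀ p, (∀ j, p ∉ A j '' closedBall 0 1) → F' p = F p) ∧
      (∀ p, ‖F' p - F p‖ ≤ i * (e / N)) ∧
      (∀ i' p, m i' (F' p) = m i' (F p)) ∧
      (∀ p, LD n F p → LD n F' p) ∧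
      (∀ j : Fin N, (j : ℕ) < i → ∀ z, ‖z‖ ≤ 1 / 2 → LD n F' (A j z)) ∧
      ∀ (j : Fin N) (u : E n) (c : ℝ) (ℓ : E n →L[ℝ] ℝ), ‖u‖ = 1 → 0 ≤ c →
        CDir n F (A j) 2 κ₀ c u ℓ →
        CDir n F' (A j) (2 - i / (2 * N)) (κ₀ * (1 - i / (2 * N))) c u ℓ := by
    intro i
    induction i with
    | zero =>
      intro _
      refine ⟨F, hF, fun _ _ => rfl, ?_, fun _ _ => rfl, fun _ h => h,
        fun j hj => absurd hj (by omega), fun j u c ℓ _ _ h => ?_⟩
      · intro p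
        simp
      · simpa using h
    | succ i ih =>
      intro hi
      obtain ⟨F', h2, h3, h4, h4m, h5, h6, h7⟩ := ih (by omega)
      have hN0 : (0 : ℝ) < N := by exact_mod_cast (by omega : 0 < N)
      have hiN : ((i : ℝ) + 1) ≤ N := by exact_mod_cast hi
      have hi0 : (0 : ℝ) ≤ i := by positivity
      have e1 : ((i : ℝ) + 1) / (2 * N) ≤ 1 / 2 := by
        rw [div_le_iff₀ (by positivity)]
        linarith
      have e2 : (i : ℝ) / (2 * N) < ((i : ℝ) + 1) / (2 * N) := by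
        apply div_lt_div_of_pos_right _ (by positivity)
        linarith
      have e3 : 0 ≤ (i : ℝ) / (2 * N) := by positivity
      have hCB : CBox n F' (A ⟨i, by omega⟩) (2 - i / (2 * N)) (κ₀ * (1 - i / (2 * N))) := by
        intro u hu
        obtain ⟨c, ℓ, hc, h8⟩ := hAm ⟨i, by omega⟩ u hu
        exact ⟨c, ℓ, hc, h7 _ u c ℓ hu hc.le h8⟩
      obtain ⟨F'', g1, g2, g3, g3m, g4, g5, g6⟩ := hS n X F' W N A ⟨i, by omega⟩
        (2 - i / (2 * N))
        (2 - ((i : ℝ) + 1) / (2 * N)) (κ₀ * (1 - i / (2 * N)))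
        (κ₀ * (1 - ((i : ℝ) + 1) / (2 * N))) (e / N) hW h2 hAi hAd hAW (by linarith)
        (by linarith) (by linarith)
        (mul_pos hκ0 (by linarith)) (mul_lt_mul_of_pos_left (by linarith) hκ0)
        (div_pos he hN0) hCB.mbox
      refine ⟨F'', g1, ?_, ?_, ?_, fun p hp => g4 p (h5 p hp), ?_, ?_⟩
      · intro p hp
        rw [g2 p (hp _), h3 p hp]
      · intro p
        have h8 : F'' p - F p = (F'' p - F' p) + (F' p - F p) := by abel
        rw [h8]
        refine (norm_add_le _ _).trans ?_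
        have h9 := g3 p
        have h10 := h4 p
        push_cast
        linarith
      · intro i' p
        rw [g3m (m i') ?_ p, h4m i' p]
        obtain ⟨a, l, hal⟩ := hAτ ⟨i, by omega⟩ i'
        refine ⟨a, l, fun z hz => ?_⟩
        rw [h4m i', hm i' _ (hAW _ z (by rwa [mem_closedBall_zero_iff])), hal]
      · intro j hj z hz
        rcases Nat.lt_succ_iff_lt_or_eq.1 hj with h8 | h8
        · exact g4 _ (h6 j h8 z hz)
        · have h9 : j = ⟨i, by omega⟩ := Fin.ext h8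
          rw [h9]
          exact g5 z hz
      · intro j u c ℓ hu hc h8
        push_cast
        refine CDir_of_dir hc fun m' hm' => ?_
        exact g6 j u (ℓ - m') hu ((h7 j u c ℓ hu hc h8).dir hm')
  obtain ⟨F', h2, h3, h4, h4m, h5, h6, h7⟩ := key N le_rfl
  have h3' : ∀ p, p ∉ C → F' p = F p := by
    intro p hp
    apply h3
    intro j hj
    apply hp
    rw [hCdef]
    exact mem_iUnion.2 ⟨j, hj⟩
  refine ⟨F', h2, h3', ?_, h4m, h5, ?_, ?_⟩
  · intro p
    refine (h4 p).trans ?_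
    rcases Nat.eq_zero_or_pos N with h8 | h8
    · rw [h8]
      simp [he.le]
    · have h9 : (0 : ℝ) < N := by exact_mod_cast h8
      rw [mul_div_cancel₀ _ h9.ne']
  · intro x hxK
    by_cases hxL : LD n F x
    · exact h5 x hxL
    · obtain ⟨j, z, hz, rfl⟩ := hcov x (by rw [hK'd]; exact ⟨hxK, hxL⟩)
      exact h6 j j.2 z hz
  · intro x hxW
    by_cases hxC : x ∈ C
    · right
      rw [hCdef] at hxC
      obtain ⟨j, z, hz, rfl⟩ := mem_iUnion.1 hxC
      have hN0 : 0 < N := j.pos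
      have hN0' : (0 : ℝ) < N := by exact_mod_cast hN0
      rw [mem_closedBall_zero_iff] at hz
      refine CMonET_of_CBox (κ := κ₀ / 2) (by linarith) (hAτ j) ?_ hz
        (hAd j z (by rw [mem_closedBall_zero_iff]; linarith))
      intro u hu
      obtain ⟨c, ℓ, hc, h8⟩ := hAm j u hu
      refine ⟨c, ℓ, hc, ?_⟩
      have h9 := h7 j u c ℓ hu hc.le h8
      have h10 : (N : ℝ) / (2 * N) = 1 / 2 := by
        field_simp
      rw [h10] at h9
      have h11 : (2 : ℝ) - 1 / 2 = 3 / 2 := by norm_num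
      have h12 : κ₀ * (1 - 1 / 2) = κ₀ / 2 := by ring
      rwa [h11, h12] at h9
    · have h8 : F' =ᶠ[𝓝 x] F := by
        filter_upwards [hCc.isClosed.isOpen_compl.mem_nhds hxC] with y hy
        exact h3' y hy
      rcases hx x hxW with h9 | h9
      · exact Or.inl (h5 x h9)
      · exact Or.inr (h9.congr h8)

theorem cphaseT : StCPhaseT := cphaseT_of cstepT

theorem cphase : StCPhase := by
  intro n X _ _ _ _ F W K hW hF hx hK hKW
  obtain ⟨C, h1, h2, h3⟩ := cphaseT n X Empty (fun i _ => i.elim) (fun i => i.elim) F W K hW hF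
    (fun x hxW => (hx x hxW).imp id CMonET.of_empty) hK hKW (fun i => i.elim)
  refine ⟨C, h1, h2, fun e he => ?_⟩
  obtain ⟨F', g1, g2, g3, -, g4, g5, g6⟩ := h3 e he
  exact ⟨F', g1, g2, g3, g4, g5, fun x hxW => (g6 x hxW).imp id CMonET.toE⟩

/-- cone monotone maps of compact manifolds are approximated by local diffeomorphisms -/
theorem call_holds : StCAll := call (cstage cphase)

end Pool.Agent.Q131.CM
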