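import Pool.Agent.Q131.CM.LevelT
import Pool.Agent.Y434.CI.Main

/-!
# Product coordinates on `ℝ × X` and slices of level preserving local diffeomorphisms
-/

set_option autoImplicit false

open Set Filter Topology Metric Function MeasureTheory
open scoped Manifold ContDiff

noncomputable section

namespace Pool.Agent.Q131.CM

open Pool.Agent.Y522 Pool.Agent.Y66.CM Pool.Agent.Y434.CI

section prod

variable {k : ℕ} {M N : Type} [TopologicalSpace M] [ChartedSpace (E k) M] [IsManifold (𝓡 k) ∞ M]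
  [TopologicalSpace N] [ChartedSpace (E k) N] [IsManifold (𝓡 k) ∞ N]

/-- product with a translation -/
def prodPD (a : ℝ) (Φ : PartialDiffeomorph (𝓡 k) (𝓡 k) M N ∞) :
    PartialDiffeomorph (𝓡 (k + 1)) (𝓡 (k + 1)) (Pr M) (Pr N) ∞ where
  toFun p := mk (a + (un p).1, Φ (un p).2)
  invFun q := mk ((un q).1 - a, Φ.symm (un q).2)
  source := {p | (un p).2 ∈ Φ.source}
  target := {q | (un q).2 ∈ Φ.target}
  map_source' := fun p hp => Φ.map_source hp
  map_target' := fun q hq => Φ.map_target hq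
  left_inv' := fun p hp => by
    apply un_inj
    refine Prod.ext ?_ ?_
    · change a + (un p).1 - a = (un p).1
      ring
    · exact Φ.left_inv hp
  right_inv' := fun q hq => by
    apply un_inj
    refine Prod.ext ?_ ?_
    · change a + ((un q).1 - a) = (un q).1
      ring
    · exact Φ.right_inv hq
  open_source := Φ.open_source.preimage (continuous_snd.comp cont_un)
  open_target := Φ.open_target.preimage (continuous_snd.comp cont_un)
  contMDiffOn_toFun := by
    have h1 : ContMDiffOn (𝓡 (k + 1)) 𝓘(ℝ, ℝ) ∞ (fun p : Pr M => a + (un p).1)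
        {p | (un p).2 ∈ Φ.source} := by
      have h3 : ContDiff ℝ ∞ (fun s : ℝ => a + s) := by fun_prop
      exact (h3.contMDiff.comp (smooth_hgt (X := M))).contMDiffOn
    have h2 : ContMDiffOn (𝓡 (k + 1)) (𝓡 k) ∞ (fun p : Pr M => Φ (un p).2)
        {p | (un p).2 ∈ Φ.source} :=
      Φ.contMDiffOn_toFun.comp (smooth_snd (X := M)).contMDiffOn fun p hp => hp
    exact (smooth_mk (X := N)).comp_contMDiffOn (h1.prodMk h2)
  contMDiffOn_invFun := by
    have h1 : ContMDiffOn (𝓡 (k + 1)) 𝓘(ℝ, ℝ) ∞ (fun p : Pr N => (un p).1 - a)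
        {p | (un p).2 ∈ Φ.target} := by
      have h3 : ContDiff ℝ ∞ (fun s : ℝ => s - a) := by fun_prop
      exact (h3.contMDiff.comp (smooth_hgt (X := N))).contMDiffOn
    have h2 : ContMDiffOn (𝓡 (k + 1)) (𝓡 k) ∞ (fun p : Pr N => Φ.symm (un p).2)
        {p | (un p).2 ∈ Φ.target} :=
      Φ.contMDiffOn_invFun.comp (smooth_snd (X := N)).contMDiffOn fun p hp => hp
    exact (smooth_mk (X := M)).comp_contMDiffOn (h1.prodMk h2)

theorem LD_prod (a : ℝ) {φ : M → N} {p : Pr M} (h : LD k φ (un p).2) :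
    LD (k + 1) (fun p : Pr M => mk (a + (un p).1, φ (un p).2)) p := by
  obtain ⟨Φ, h1, h2⟩ := h
  refine ⟨prodPD a Φ, h1, fun q hq => ?_⟩
  change mk (a + (un q).1, φ (un q).2) = mk (a + (un q).1, Φ (un q).2)
  rw [h2 hq]

theorem LD_flat (w : E (k + 1)) : LD (k + 1) (fun w : E (k + 1) => mk (w 0, (tl w : E k))) w := by
  refine LD_of_inv (g := fun p : Pr (E k) => (cn (un p).1 (un p).2 : E (k + 1))) ?_ ?_ ?_ ?_ w
  · have h1 : ContMDiff (𝓡 (k + 1)) 𝓘(ℝ, ℝ) ∞ (fun w : E (k + 1) => w 0) :=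
      (contDiff_hd (k := k)).contMDiff
    have h2 : ContMDiff (𝓡 (k + 1)) (𝓡 k) ∞ (fun w : E (k + 1) => (tl w : E k)) :=
      (tl (m := k)).contDiff.contMDiff
    exact (smooth_mk (X := E k)).comp (h1.prodMk h2)
  · have h3 := (smooth_hgt (X := E k) (k := k)).prodMk_space (smooth_snd (X := E k) (k := k))
    exact (contDiff_cn (k := k)).contMDiff.comp h3
  · intro w
    exact cn_tl w
  · intro p
    apply un_inj
    refine Prod.ext ?_ ?_
    · rfl
    · exact tl_cn _ _

theorem LD_unflat (p : Pr (E k)) :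
    LD (k + 1) (fun p : Pr (E k) => (cn (un p).1 (un p).2 : E (k + 1))) p := by
  refine LD_of_inv (f := fun p : Pr (E k) => (cn (un p).1 (un p).2 : E (k + 1)))
    (g := fun w : E (k + 1) => mk (w 0, (tl w : E k))) ?_ ?_ ?_ ?_ p
  · have h3 := (smooth_hgt (X := E k) (k := k)).prodMk_space (smooth_snd (X := E k) (k := k))
    exact (contDiff_cn (k := k)).contMDiff.comp h3
  · have h1 : ContMDiff (𝓡 (k + 1)) 𝓘(ℝ, ℝ) ∞ (fun w : E (k + 1) => w 0) :=
      (contDiff_hd (k := k)).contMDiff
    have h2 : ContMDiff (𝓡 (k + 1)) (𝓡 k) ∞ (fun w : E (k + 1) => (tl w : E k)) :=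
      (tl (m := k)).contDiff.contMDiff
    exact (smooth_mk (X := E k)).comp (h1.prodMk h2)
  · intro p
    apply un_inj
    refine Prod.ext ?_ ?_
    · rfl
    · exact tl_cn _ _
  · intro w
    exact cn_tl w

/-- product parametrization -/
theorem LD_par (a : ℝ) {A : E k → M} (h : LD k A 0) :
    LD (k + 1) (fun w : E (k + 1) => (mk (a + w 0, A (tl w)) : Pr M)) 0 := by
  have h1 := LD_flat (k := k) (0 : E (k + 1))
  have h2 : LD (k + 1) (fun p : Pr (E k) => mk (a + (un p).1, A (un p).2))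
      (mk ((0 : E (k + 1)) 0, (tl (0 : E (k + 1)) : E k))) := by
    apply LD_prod
    change LD k A (tl (0 : E (k + 1)))
    rw [map_zero]
    exact h
  exact LD.comp_fun (g := fun p : Pr (E k) => (mk (a + (un p).1, A (un p).2) : Pr M))
    (f := fun w : E (k + 1) => (mk (w 0, (tl w : E k)) : Pr (E k))) h2 h1

/-- product chart -/
theorem LD_cht {B : M → E k} {p : Pr M} (h : LD k B (un p).2) :
    LD (k + 1) (fun p : Pr M => (cn (un p).1 (B (un p).2) : E (k + 1))) p := by
  have h1 := LD_prod 0 h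
  have h2 : LD (k + 1) (fun p : Pr (E k) => (cn (un p).1 (un p).2 : E (k + 1)))
      ((fun p : Pr M => mk (0 + (un p).1, B (un p).2)) p) := LD_unflat _
  have h3 := LD.comp_fun (g := fun p : Pr (E k) => (cn (un p).1 (un p).2 : E (k + 1)))
    (f := fun p : Pr M => (mk (0 + (un p).1, B (un p).2) : Pr (E k))) h2 h1
  simp only [un_mk, zero_add] at h3
  exact h3

/-- the time -/
def tm {M : Type} (_ : Unit) (p : Pr M) : ℝ := (un p).1

theorem tchart_exists (y : Pr N) : ∃ (V : Set (Pr N)) (B : Pr N → E (k + 1))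
    (m : Unit → E (k + 1) →L[ℝ] ℝ), y ∈ V ∧ TChart (k + 1) tm V B m := by
  refine ⟨(chartAt (E (k + 1)) y).source, chartAt (E (k + 1)) y, fun _ => EuclideanSpace.proj 0,
    mem_chart_source _ _, (chartAt (E (k + 1)) y).open_source, (chartAt (E (k + 1)) y).injOn,
    fun z hz => LD_chart y z hz, fun _ z _ => ?_⟩
  rfl

end prod

section slice

variable {k : ℕ} {X Y : Type} [TopologicalSpace X] [ChartedSpace (E k) X] [IsManifold (𝓡 k) ∞ X]
  [TopologicalSpace Y] [ChartedSpace (E k) Y] [IsManifold (𝓡 k) ∞ Y]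

/-- the slices of a level preserving local diffeomorphism are local homeomorphisms -/
theorem slice_loc {G : Pr X → Pr Y} (hG : ∀ p, LD (k + 1) G p)
    (hl : ∀ p, (un (G p)).1 = (un p).1) (t : ℝ) :
    IsLocalHomeomorph (fun x => (un (G (mk (t, x)))).2) := by
  have hGc : Continuous G := continuous_iff_continuousAt.2 fun p => (hG p).continuousAt
  have hmk : ∀ x, mk (t, (un (G (mk (t, x)))).2) = G (mk (t, x)) := by
    intro x
    apply un_inj
    refine Prod.ext ?_ rfl
    exact (hl (mk (t, x))).symm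
  have hc : Continuous (fun x => (un (G (mk (t, x)))).2) := by
    have h1 : Continuous (fun x : X => (mk (t, x) : Pr X)) :=
      cont_mk.comp (continuous_const.prodMk continuous_id)
    exact continuous_snd.comp (cont_un.comp (hGc.comp h1))
  have hopen : ∀ W : Set X, IsOpen W → IsOpen ((fun x => (un (G (mk (t, x)))).2) '' W) := by
    intro W hW
    have h1 : IsOpen (G '' {p | (un p).2 ∈ W}) :=
      isOpen_image_of_LD (hW.preimage (continuous_snd.comp cont_un)) fun p _ => hG p
    have h2 : Continuous (fun y : Y => (mk (t, y) : Pr Y)) :=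
      cont_mk.comp (continuous_const.prodMk continuous_id)
    have h3 : (fun x => (un (G (mk (t, x)))).2) '' W =
        (fun y : Y => (mk (t, y) : Pr Y)) ⁻¹' (G '' {p | (un p).2 ∈ W}) := by
      ext y
      constructor
      · rintro ⟨x, hx, rfl⟩
        exact ⟨mk (t, x), hx, (hmk x).symm⟩
      · rintro ⟨p, hp, hpy⟩
        have h4 : (un p).1 = t := by
          rw [← hl p, hpy]
          rfl
        have h5 : p = mk (t, (un p).2) := un_inj (Prod.ext h4 rfl)
        refine ⟨(un p).2, hp, ?_⟩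
        change (un (G (mk (t, (un p).2)))).2 = y
        rw [← h5, hpy]
        rfl
    rw [h3]
    exact h1.preimage h2
  rw [isLocalHomeomorph_iff_isOpenEmbedding_restrict]
  intro x
  obtain ⟨u, hu, hinj⟩ := (hG (mk (t, x))).eventually_injOn
  have h1 : Continuous (fun x : X => (mk (t, x) : Pr X)) :=
    cont_mk.comp (continuous_const.prodMk continuous_id)
  have h2 : (fun x : X => (mk (t, x) : Pr X)) ⁻¹' u ∈ 𝓝 x := h1.continuousAt hu
  obtain ⟨U, hU1, hU2, hU3⟩ := mem_nhds_iff.1 h2
  refine ⟨U, hU2.mem_nhds hU3, ?_⟩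
  refine IsOpenEmbedding.of_continuous_injective_isOpenMap (hc.comp continuous_subtype_val) ?_ ?_
  · rintro ⟨a, ha⟩ ⟨b, hb⟩ hab
    have h3 : G (mk (t, a)) = G (mk (t, b)) := by
      rw [← hmk a, ← hmk b]
      exact congrArg (fun y => mk (t, y)) hab
    have h4 := hinj (hU1 ha) (hU1 hb) h3
    exact Subtype.ext (congrArg (fun r : Pr X => (un r).2) h4)
  · intro W hW
    have h3 : (U.domRestrict fun x => (un (G (mk (t, x)))).2) '' W =
        (fun x => (un (G (mk (t, x)))).2) '' (Subtype.val '' W) := by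
      rw [image_image]
      rfl
    rw [h3]
    exact hopen _ (hU2.isOpenMap_subtype_val W hW)

end slice

end Pool.Agent.Q131.CM
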